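import Pool.Agent.Lib.MP_492a9e_co.Pen.Drop

/-!
# Structure of the normal form; two colours: pendant sinks have no arcs from minimal vertices
-/

open Finset Wood2

namespace Wood3

set_option linter.unusedSectionVars false

namespace Dg

variable {V A : Type} [Fintype V] [DecidableEq V] [DecidableEq A] [Fintype A]

theorem Mn.cut_up {k : ℕ} (hk : 0 < k) {D : Dg V A} (h : Mn k D) (x : V) : Cut D.r (D.up x) := by
  refine ⟨⟨x, mem_up.2 (h.ok.refl _)⟩, fun h2 => ?_, up_up h.ok.tr _⟩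
  apply h.no_min hk
  refine ⟨x, fun y => ?_⟩
  have : y ∈ D.up x := h2 ▸ mem_univ y
  exact mem_up.1 this

theorem Nf.snk_ts {k : ℕ} (hk : 2 ≤ k) {D : Dg V A} (h : Nf k D) {x : V} (hx : D.Snk x) :
    TS k D x := by
  have hk0 : 0 < k := by omega
  by_contra hn
  have h1 := h.mn.ok.val _ (h.mn.cut_up hk0 x)
  obtain ⟨e1, he1, e2, he2, hne⟩ := one_lt_card.1 (show 1 < (D.E (D.up x)).card by omega)
  obtain ⟨a1, a2, a3⟩ := mem_E.1 he1
  obtain ⟨b1, b2, b3⟩ := mem_E.1 he2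
  rw [mem_up] at a3 b3
  have h2 : ¬ TS k D (D.hd e1) := fun h3 => hn (h3.congr h.mn.ok.tr (hx _ a3))
  rcases h.low e1 a1 h2 (D.hd e2) (h.mn.ok.tr _ _ _ (hx _ b3) a3) with h3 | h3
  · exact hne (h.inj h3.symm)
  · exact h.mn.no_loop b1 (h3 _ (h.mn.ok.comp e2 b1))

/-- open heads -/
def Q (k : ℕ) (D : Dg V A) (x : V) : Prop := ∃ e ∈ D.S, D.hd e = x ∧ ¬ TS k D x

open Classical in
/-- the middle part -/
noncomputable def M (k : ℕ) (D : Dg V A) : Finset V :=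
  univ.filter fun x => ¬ D.op.Snk x ∧ ¬ Q k D x

theorem mem_M {k : ℕ} {D : Dg V A} {x : V} : x ∈ M k D ↔ ¬ D.op.Snk x ∧ ¬ Q k D x := by
  simp [M]

theorem Nf.M_up {k : ℕ} {D : Dg V A} (h : Nf k D) : Up D.r (M k D) := by
  intro x hx y hxy
  rw [mem_M] at hx ⊢
  refine ⟨fun h1 => hx.1 (src_of_le h.mn.ok.tr h1 hxy), ?_⟩
  rintro ⟨e, he, rfl, h1⟩
  rcases h.low e he h1 x hxy with h2 | h2
  · exact hx.2 ⟨e, he, h2.symm, by rw [h2]; exact h1⟩
  · exact hx.1 h2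

theorem Mn.hd_not_src {k : ℕ} {D : Dg V A} (h : Mn k D) {e : A} (he : e ∈ D.S) :
    ¬ D.op.Snk (D.hd e) := fun h1 => h.no_loop he (h1 _ (h.ok.comp e he))

theorem Mn.snk_not_src {k : ℕ} (hk : 0 < k) {D : Dg V A} (h : Mn k D) {x : V} (hx : D.Snk x) :
    ¬ D.op.Snk x := by
  intro h1
  obtain ⟨e, he⟩ := card_pos.1 (lt_of_lt_of_le hk (h.ok.val _ (h.cut_up hk x)))
  obtain ⟨a1, a2, a3⟩ := mem_E.1 he
  rw [mem_up] at a3
  exact h.hd_not_src a1 (src_of_le h.ok.tr h1 (hx _ a3))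

theorem Nf.snk_M {k : ℕ} (hk : 2 ≤ k) {D : Dg V A} (h : Nf k D) {x : V} (hx : D.Snk x) :
    x ∈ M k D := by
  rw [mem_M]
  refine ⟨h.mn.snk_not_src (by omega) hx, ?_⟩
  rintro ⟨e, _, _, h1⟩
  exact h1 (h.snk_ts hk hx)

theorem Nf.tl_or {k : ℕ} (hk : 0 < k) {D : Dg V A} (h : Nf k D) {e : A} (he : e ∈ D.S) :
    D.tl e ∈ M k D ∨ D.op.Snk (D.tl e) := by
  by_contra hn
  push Not at hn
  obtain ⟨h1, h2⟩ := hn
  apply h1
  rw [mem_M]
  refine ⟨h2, ?_⟩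
  rintro ⟨g, hg, h3, h4⟩
  refine h.mn.open_tail hk hg (by rw [h3]; exact h4) he ?_ ?_
  · rw [h3]; exact h.mn.ok.refl _
  · rw [h3]; exact h.mn.ok.refl _

theorem Nf.hd_ts {k : ℕ} {D : Dg V A} {e : A} (he : e ∈ D.S)
    (h1 : D.hd e ∈ M k D) : TS k D (D.hd e) := by
  by_contra hn
  exact (mem_M.1 h1).2 ⟨e, he, rfl, hn⟩

theorem Nf.hd_open {k : ℕ} (hk : 2 ≤ k) {D : Dg V A} (h : Nf k D) {e : A} (he : e ∈ D.S)
    (h1 : D.hd e ∉ M k D) : ¬ TS k D (D.hd e) ∧ TS k D.op (D.tl e) := by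
  have h2 : ¬ TS k D (D.hd e) := fun h3 => h1 (h.snk_M hk h3.1)
  exact ⟨h2, (h.mn.ts_or (by omega) he).resolve_left h2⟩

/-- a minimal vertex below one maximal class only is tight -/
theorem Nf.pend_ts {k : ℕ} (hk : 2 ≤ k) {D : Dg V A} (h : Nf k D) {s : V} (hs : D.op.Snk s)
    (h1 : D.op.One s) : TS k D.op s := by
  have hk0 : 0 < k := by omega
  by_contra hn
  have h2 := h.mn.op.ok.val _ (h.mn.op.cut_up hk0 s)
  have h3 : (D.op.E (D.op.up s)).card ≠ k := fun h4 => hn ⟨hs, h4⟩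
  obtain ⟨c, hc⟩ := h1
  obtain ⟨t, ht, hct⟩ := exists_snk h.mn.ok.refl h.mn.ok.tr c
  have h4 := (h.snk_ts hk ht).2
  have hsub : D.op.E (D.op.up s) ⊆ D.E (D.up t) := by
    intro g hg
    obtain ⟨a1, a2, a3⟩ := mem_E.1 hg
    rw [mem_up] at a2 a3
    change D.r (D.tl g) s at a3
    have a4 : ¬ TS k D.op (D.tl g) := fun h5 => hn (h5.congr h.mn.op.ok.tr (hs _ a3))
    have a5 : TS k D (D.hd g) := (h.mn.ts_or hk0 a1).resolve_right a4
    have a6 : D.r s (D.tl g) := hs _ a3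
    have a7 : D.r (D.hd g) t :=
      h.mn.ok.tr _ _ _ (hc _ (h.mn.ok.tr _ _ _ a6 (h.mn.ok.comp g a1))) hct
    have a8 : D.r t (D.hd g) := a5.1 _ a7
    rw [mem_E, mem_up, mem_up]
    exact ⟨a1, fun h5 => h.mn.no_loop a1 (h.mn.ok.tr _ _ _ a7 h5), a8⟩
  have h5 := card_le_card hsub
  omega

/-- (B): for two colours, a maximal vertex above one minimal class only has no arc from it -/
theorem Mn.bb {D : Dg V A} (h : Mn 2 D) {z : V} (hz : TS 2 D z) (h1 : D.One z) {e1 : A}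
    (he1 : e1 ∈ D.S) (hh : D.r z (D.hd e1)) : ¬ D.op.Snk (D.tl e1) := by
  classical
  intro hsrc
  have htr := h.ok.tr
  have hz1 : D.r (D.hd e1) z := hz.1 _ hh
  have hm1 : e1 ∈ D.E (D.up z) := by
    rw [mem_E, mem_up, mem_up]
    exact ⟨he1, fun h2 => h.no_loop he1 (htr _ _ _ hz1 h2), hh⟩
  obtain ⟨e2, hm2, hne⟩ : ∃ e2 ∈ D.E (D.up z), e2 ≠ e1 := by
    by_contra hn
    push Not at hn
    have h2 : (D.E (D.up z)) ⊆ {e1} := fun x hx => mem_singleton.2 (hn x hx)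
    have h3 := card_le_card h2
    rw [hz.2, card_singleton] at h3
    omega
  obtain ⟨he2, -, hh2⟩ := mem_E.1 hm2
  rw [mem_up] at hh2
  have hz2 : D.r (D.hd e2) z := hz.1 _ hh2
  obtain ⟨b, hb⟩ := h1
  have hbt : D.r (D.tl e1) (D.tl e2) := by
    have h2 : D.r b (D.tl e1) := hb _ (htr _ _ _ (h.ok.comp e1 he1) hz1)
    have h3 : D.r b (D.tl e2) := hb _ (htr _ _ _ (h.ok.comp e2 he2) hz2)
    exact htr _ _ _ (hsrc b h2) h3
  have ht2 : D.r (D.tl e2) z := htr _ _ _ (h.ok.comp e2 he2) hz2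
  let D' : Dg V A :=
    ⟨fun x y => D.r x y ∨ (D.r x z ∧ D.r (D.tl e2) y), D.tl, D.hd, D.S.erase e2⟩
  have hok : Ok 2 D' := by
    refine ⟨fun v => Or.inl (h.ok.refl v), ?_,
      fun e he => Or.inl (h.ok.comp e (mem_of_mem_erase he)), ?_, ?_⟩
    · rintro u v w (h2 | ⟨h2, h2'⟩) (h3 | ⟨h3, h3'⟩)
      · exact Or.inl (htr _ _ _ h2 h3)
      · exact Or.inr ⟨htr _ _ _ h2 h3, h3'⟩
      · exact Or.inr ⟨h2, htr _ _ _ h2' h3⟩
      · exact Or.inr ⟨h2, h3'⟩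
    · intro v w
      have k1 : D.One w → D'.One w := by
        rintro ⟨b', hb'⟩
        refine ⟨b', fun y hy => ?_⟩
        rcases hy with hy | ⟨hy, hy'⟩
        · exact Or.inl (hb' y hy)
        · have h2 : D.r b (D.tl e2) := hb _ ht2
          have h3 : D.r b' b := hb' b (htr _ _ _ h2 hy')
          exact Or.inl (htr _ _ _ h3 (hb y hy))
      rcases h.ok.K v w with h2 | h2 | ⟨a, t, h2, h3, h4⟩
      · obtain ⟨c, hc⟩ := h2
        by_cases hvz : D.r v z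
        · rcases h.ok.K (D.tl e2) w with ⟨c', hc'⟩ | h4 | ⟨a, t, h4, h5, h6⟩
          · left
            refine ⟨z, fun y hy => Or.inl ?_⟩
            rcases hy with hy | ⟨_, hy⟩
            · exact htr _ _ _ (hc y hy) (hz.1 _ (hc z hvz))
            · exact htr _ _ _ (hc' y hy) (hz.1 _ (hc' z ht2))
          · exact Or.inr (Or.inl (k1 h4))
          · exact Or.inr (Or.inr ⟨b, t, Or.inl (hb v hvz), Or.inl h5,
              Or.inl (htr _ _ _ (hb a (htr _ _ _ h4 ht2)) h6)⟩)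
        · left
          refine ⟨c, fun y hy => Or.inl ?_⟩
          rcases hy with hy | ⟨hy, _⟩
          · exact hc y hy
          · exact absurd hy hvz
      · exact Or.inr (Or.inl (k1 h2))
      · exact Or.inr (Or.inr ⟨a, t, Or.inl h2, Or.inl h3, Or.inl h4⟩)
    · intro U hU
      have hc : Cut D.r U := ⟨hU.1, hU.2.1, fun u hu v huv => hU.2.2 u hu v (Or.inl huv)⟩
      have h2 := h.ok.val U hc
      change 2 ≤ (ent D.tl D.hd (D.S.erase e2) U).card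
      rw [E_erase, erase_eq_of_notMem]
      · exact h2
      · intro h3
        obtain ⟨-, h4, h5⟩ := mem_E.1 h3
        have h6 : z ∈ U := hc.2.2 _ h5 _ hz2
        exact h4 (hU.2.2 _ h6 _ (Or.inr ⟨h.ok.refl z, h.ok.refl _⟩))
  obtain ⟨f, hf⟩ := h.min V D' hok (card_erase_lt_of_mem he2)
  apply h.bad
  refine ⟨Function.update f e2 (f e1 + 1), fun i U hU => ?_⟩
  by_cases hc : z ∈ U → D.tl e2 ∈ U
  · obtain ⟨e, he, h2, h3⟩ := hf i U ⟨hU.1, hU.2.1, by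
      rintro u hu v (huv | ⟨h4, h5⟩)
      · exact hU.2.2 u hu v huv
      · exact hU.2.2 _ (hc (hU.2.2 _ hu _ h4)) _ h5⟩
    have he' := mem_erase.1 he
    exact ⟨e, he'.2, by rw [Function.update_of_ne he'.1]; exact h2, h3⟩
  · push Not at hc
    obtain ⟨hzU, htU⟩ := hc
    have h2 : D.tl e1 ∉ U := fun h3 => htU (hU.2.2 _ h3 _ hbt)
    have h3 : D.hd e1 ∈ U := hU.2.2 _ hzU _ hh
    have h4 : D.hd e2 ∈ U := hU.2.2 _ hzU _ hh2
    by_cases hi : i = f e1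
    · exact ⟨e1, he1, by rw [Function.update_of_ne hne.symm]; exact hi.symm, h2, h3⟩
    · refine ⟨e2, he2, ?_, htU, h4⟩
      rw [Function.update_self]
      revert hi
      generalize f e1 = j
      revert i j
      decide

end Dg

end Wood3
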