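import Pool.Agent.Lib.MP_492a9e_co.Two.Main
import Pool.Agent.Lib.MP_492a9e_co.Pen.Nform

section
/-!
# The union of two matchings is bipartite; two colours on one side
-/
open Finset Wood2

namespace Wood3

set_option linter.unusedSectionVars false

variable {V A : Type} [Fintype V] [DecidableEq V] [DecidableEq A] [Fintype A]

/-- two fixed point free involutions -/
theorem exists_free {B : Type} [Fintype B] (σ τ : Equiv.Perm B) (hσ : σ * σ = 1) (hτ : τ * τ = 1)
    (hσf : ∀ x, σ x ≠ x) (hτf : ∀ x, τ x ≠ x) :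
    ∃ g : B → Bool, (∀ x, g (σ x) ≠ g x) ∧ ∀ x, g (τ x) ≠ g x := by
  classical
  set ρ : Equiv.Perm B := σ * τ with hρ
  have hσi : σ⁻¹ = σ := inv_eq_of_mul_eq_one_left hσ
  have hτi : τ⁻¹ = τ := inv_eq_of_mul_eq_one_left hτ
  have hinv : ρ⁻¹ = τ * σ := by rw [hρ, mul_inv_rev, hσi, hτi]
  have hsc : ∀ m : ℤ, σ * ρ ^ m = ρ ^ (-m) * σ := by
    intro m
    have h1 : SemiconjBy σ ρ ρ⁻¹ := by
      change σ * ρ = ρ⁻¹ * σ
      rw [hinv, hρ, ← mul_assoc, hσ, one_mul, mul_assoc, hσ, mul_one]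
    have h2 := h1.zpow_right m
    rw [inv_zpow'] at h2
    exact h2
  have hσρ : σ * ρ = τ := by rw [hρ, ← mul_assoc, hσ, one_mul]
  -- the orbits
  let s : Setoid B := Equiv.Perm.SameCycle.setoid ρ
  have hrel : ∀ x y : B, s x y ↔ ∃ i : ℤ, (ρ ^ i) x = y := fun x y => Iff.rfl
  have hmap : ∀ x y, s x y → s (σ x) (σ y) := by
    rintro x y ⟨i, rfl⟩
    refine ⟨-i, ?_⟩
    have := congrArg (fun p : Equiv.Perm B => p x) (hsc i)
    simp only [Equiv.Perm.mul_apply] at this
    exact this.symm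
  have hne : ∀ x, ¬ s (σ x) x := by
    rintro x ⟨i, hi⟩
    rcases Int.even_or_odd' i with ⟨j, rfl | rfl⟩
    · apply hσf ((ρ ^ (-j)) x)
      have h1 := congrArg (fun p : Equiv.Perm B => p x) (hsc (-j))
      simp only [Equiv.Perm.mul_apply, neg_neg] at h1
      rw [h1]
      have h2 : (ρ ^ j) (σ x) = (ρ ^ (-j)) ((ρ ^ (2 * j)) (σ x)) := by
        rw [← Equiv.Perm.mul_apply (ρ ^ (-j)) (ρ ^ (2 * j)), ← zpow_add]
        congr 2
        ring
      rw [h2, hi]
    · apply hτf ((ρ ^ (-j - 1)) x)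
      rw [← hσρ, Equiv.Perm.mul_apply, ← Equiv.Perm.mul_apply ρ, ← zpow_one_add]
      have h1 := congrArg (fun p : Equiv.Perm B => p x) (hsc (1 + (-j - 1)))
      simp only [Equiv.Perm.mul_apply] at h1
      rw [h1]
      have h2 : (ρ ^ (-(1 + (-j - 1)))) (σ x) = (ρ ^ (-j - 1)) ((ρ ^ (2 * j + 1)) (σ x)) := by
        rw [← Equiv.Perm.mul_apply (ρ ^ (-j - 1)) (ρ ^ (2 * j + 1)), ← zpow_add]
        congr 2
        ring
      rw [h2, hi]
  let σ' : Quotient s → Quotient s := Quotient.map σ hmap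
  have hσ' : ∀ q, σ' (σ' q) = q := by
    intro q
    induction q using Quotient.inductionOn with
    | _ x =>
      change Quotient.mk s (σ (σ x)) = _
      rw [← Equiv.Perm.mul_apply, hσ]
      rfl
  have : DecidableRel (fun x y : B => s x y) := Classical.decRel _
  obtain ⟨g, hg⟩ := exists_val σ' hσ'
  have k1 : ∀ x, g (Quotient.mk s (σ x)) ≠ g (Quotient.mk s x) := by
    intro x
    exact hg (Quotient.mk s x) fun h => hne x (Quotient.exact h)
  refine ⟨fun x => g (Quotient.mk s x), k1, fun x => ?_⟩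
  have h1 : Quotient.mk s (τ x) = Quotient.mk s (σ x) := by
    apply Quotient.sound
    refine ⟨1, ?_⟩
    rw [zpow_one]
    rw [hρ, Equiv.Perm.mul_apply, ← Equiv.Perm.mul_apply τ, hτ]
    rfl
  change g (Quotient.mk s (τ x)) ≠ g (Quotient.mk s x)
  rw [h1]
  exact k1 x

/-- doubling an involution -/
theorem exists_double {B : Type} [DecidableEq B] (σ : B → B) (hσ : ∀ e, σ (σ e) = e) :
    ∃ p : Equiv.Perm (B × Bool), p * p = 1 ∧ (∀ x, p x ≠ x) ∧
      ∀ e, σ e ≠ e → p (e, true) = (σ e, true) := by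
  classical
  let q : B × Bool → B × Bool := fun x => if σ x.1 = x.1 then (x.1, !x.2) else (σ x.1, x.2)
  have hq : ∀ x, q (q x) = x := by
    rintro ⟨e, b⟩
    by_cases h : σ e = e
    · simp [q, h]
    · have h2 : e ≠ σ e := fun h3 => h h3.symm
      simp only [q, h, if_false, h2, hσ]
  refine ⟨⟨q, q, hq, hq⟩, ?_, ?_, ?_⟩
  · ext1 x
    exact hq x
  · rintro ⟨e, b⟩
    change q (e, b) ≠ (e, b)
    by_cases h : σ e = e
    · simp [q, h]
    · simp only [q, h, if_false, ne_eq, Prod.mk.injEq, and_true, not_false_eq_true]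
  · intro e he
    change q (e, true) = _
    simp only [q, he, if_false]

/-- **two involutions** -/
theorem exists_val2 {B : Type} [Fintype B] [DecidableEq B] (σ τ : B → B) (hσ : ∀ e, σ (σ e) = e)
    (hτ : ∀ e, τ (τ e) = e) : ∃ g : B → Bool, Val σ g ∧ Val τ g := by
  obtain ⟨p, p1, p2, p3⟩ := exists_double σ hσ
  obtain ⟨q, q1, q2, q3⟩ := exists_double τ hτ
  obtain ⟨g, h1, h2⟩ := exists_free p q p1 q1 p2 q2
  refine ⟨fun e => g (e, true), fun e he => ?_, fun e he => ?_⟩
  · have := h1 (e, true)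
    rw [p3 e he] at this
    exact this
  · have := h2 (e, true)
    rw [q3 e he] at this
    exact this

/-- **one side** -/
theorem half_colour {r : V → V → Prop} (hrefl : ∀ v, r v v) (htr : ∀ u v w, r u v → r v w → r u w)
    {Rt : Finset V} (hRt : Dn r Rt) {tl hd : A → V} {H : Finset A} (hH : ∀ e ∈ H, r (tl e) (hd e))
    (h2 : ∀ U, Fam r Rt U → 2 ≤ (ent tl hd H U).card) :
    ∃ σ : A → A, (∀ e, σ (σ e) = e) ∧ ∀ g : A → Bool, Val σ g →
      ∃ f : A → Bool, (∀ e, tl e ∈ Rt → f e = g e) ∧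
        ∀ b U, Fam r Rt U → ∃ e ∈ H, f e = b ∧ tl e ∉ U ∧ hd e ∈ U := by
  classical
  -- root arcs `E`, other arcs `B`
  let E : Finset A := H.filter fun e => tl e ∈ Rt
  let B : Finset A := H.filter fun e => tl e ∉ Rt
  have hEB : ∀ U, (ent tl hd E U).card + (ent tl hd B U).card = (ent tl hd H U).card := by
    intro U
    rw [← card_union_of_disjoint]
    · congr 1
      ext e
      simp only [mem_union, mem_ent, E, B, mem_filter]
      tauto
    · rw [Finset.disjoint_left]
      intro e h1 h2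
      simp only [mem_ent, E, B, mem_filter] at h1 h2
      exact h2.1.2 h1.1.2
  let F0 : Finset V → Prop := fun U => Fam r Rt U ∧ (ent tl hd B U).card = 0
  let M : Finset V → Prop := fun U => F0 U ∧ ∀ W, F0 W → W ⊆ U → W = U
  have hF0 : ∀ U W, F0 U → F0 W → (U ∩ W).Nonempty → F0 (U ∩ W) := by
    intro U W hU hW hne
    refine ⟨hU.1.inter hW.1 hne, ?_⟩
    have := ent_modular (tl := tl) (hd := hd) (S := B) (fun e he => hH e (mem_filter.1 he).1)
      hU.1.2.1 hW.1.2.1
    have h3 := hU.2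
    have h4 := hW.2
    omega
  have hMdis : ∀ U W, M U → M W → (U ∩ W).Nonempty → U = W := by
    intro U W hU hW hne
    have h := hF0 U W hU.1 hW.1 hne
    have e1 := hU.2 _ h inter_subset_left
    have e2 := hW.2 _ h inter_subset_right
    rw [← e1, e2]
  have hMin : ∀ U, F0 U → ∃ W, M W ∧ W ⊆ U := by
    intro U hU
    obtain ⟨W, hW, hmin⟩ := exists_min_image (univ.filter fun W => F0 W ∧ W ⊆ U) card
      ⟨U, mem_filter.2 ⟨mem_univ _, hU, Subset.refl _⟩⟩
    obtain ⟨-, hW1, hW2⟩ := mem_filter.1 hW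
    refine ⟨W, ⟨hW1, fun X hX hXW => ?_⟩, hW2⟩
    exact eq_of_subset_of_card_le hXW (hmin X (mem_filter.2 ⟨mem_univ _, hX, hXW.trans hW2⟩))
  have hpair : ∀ U, M U → ∃ x y, x ∈ ent tl hd E U ∧ y ∈ ent tl hd E U ∧ x ≠ y := by
    intro U hU
    have h3 := h2 U hU.1.1
    have h4 := hEB U
    have h5 := hU.1.2
    obtain ⟨x, hx, y, hy, hxy⟩ := one_lt_card.1 (show 1 < (ent tl hd E U).card by omega)
    exact ⟨x, y, hx, hy, hxy⟩
  by_cases hA : Nonempty A
  swap
  · refine ⟨id, fun _ => rfl, fun g _ => ⟨g, fun _ _ => rfl, ?_⟩⟩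
    intro b U hU
    have h3 := h2 U hU
    obtain ⟨e, _⟩ := card_pos.1 (lt_of_lt_of_le two_pos h3)
    exact absurd ⟨e⟩ hA
  obtain ⟨a, b, hab⟩ : ∃ a b : Finset V → A, ∀ U, M U →
      a U ∈ ent tl hd E U ∧ b U ∈ ent tl hd E U ∧ a U ≠ b U := by
    obtain ⟨e0⟩ := hA
    have : ∀ U, ∃ x y, M U → x ∈ ent tl hd E U ∧ y ∈ ent tl hd E U ∧ x ≠ y := by
      intro U
      by_cases h : M U
      · obtain ⟨x, y, h1⟩ := hpair U h
        exact ⟨x, y, fun _ => h1⟩
      · exact ⟨e0, e0, fun h' => absurd h' h⟩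
    choose a b hab using this
    exact ⟨a, b, hab⟩
  obtain ⟨σ, hσ, hσa⟩ := exists_inv M hd hMdis a b (fun U hU => (mem_ent.1 (hab U hU).1).2.2)
    (fun U hU => (mem_ent.1 (hab U hU).2.1).2.2) (fun U hU => (hab U hU).2.2)
  refine ⟨σ, hσ, fun g hg => ?_⟩
  have hgab : ∀ U, M U → g (b U) ≠ g (a U) := by
    intro U hU
    have := hg (a U) (by rw [hσa U hU]; exact (hab U hU).2.2.symm)
    rwa [hσa U hU] at this
  -- root sets
  let R : Bool → Finset V := fun c => Rt ∪ univ.filter fun v => ∃ e ∈ E, g e = c ∧ r v (hd e)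
  have hmeet : ∀ U, Fam r Rt U → ∀ e ∈ E, hd e ∈ U → ¬ Disjoint U (R (g e)) := by
    intro U _ e he hU hdis'
    refine Finset.disjoint_left.1 hdis' hU ?_
    exact mem_union_right _ (mem_filter.2 ⟨mem_univ _, e, he, rfl, hrefl _⟩)
  obtain ⟨f, hf⟩ := edmonds (C := Bool) hrefl htr (Rt := Rt) (tl := tl) (hd := hd) _ B R rfl
    (fun e he => hH e (mem_filter.1 he).1) (by
      intro c u hu v hvu
      rw [mem_union, mem_filter] at hu ⊢
      rcases hu with hu | ⟨-, e, he, h3, h4⟩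
      · exact Or.inl (hRt u hu v hvu)
      · exact Or.inr ⟨mem_univ _, e, he, h3, htr _ _ _ hvu h4⟩)
    (fun c => subset_union_left) (by
      intro U hU
      have hle2 : num R U ≤ 2 := by
        refine (card_le_univ _).trans ?_
        simp
      by_cases c0 : (ent tl hd B U).card = 0
      · obtain ⟨W, hW, hWU⟩ := hMin U ⟨hU, c0⟩
        have h3 := hab W hW
        have h4 := hgab W hW
        have m1 := mem_ent.1 h3.1
        have m2 := mem_ent.1 h3.2.1
        have n1 := hmeet U hU _ m1.1 (hWU m1.2.2)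
        have n2 := hmeet U hU _ m2.1 (hWU m2.2.2)
        have : num R U = 0 := by
          rw [num, card_eq_zero, filter_eq_empty_iff]
          intro c _
          by_cases hc : c = g (a W)
          · rw [hc]; exact n1
          · have : c = g (b W) := by
              revert hc h4
              cases c <;> cases g (a W) <;> cases g (b W) <;> simp
            rw [this]; exact n2
        omega
      · by_cases c1 : (ent tl hd B U).card = 1
        · have h3 := h2 U hU
          have h4 := hEB U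
          obtain ⟨e, he⟩ := card_pos.1 (show 0 < (ent tl hd E U).card by omega)
          have m1 := mem_ent.1 he
          have n1 := hmeet U hU _ m1.1 m1.2.2
          have : num R U ≤ 1 := by
            rw [num]
            have hs : (univ.filter fun c => Disjoint U (R c)) ⊆ {!(g e)} := by
              intro c hc
              rw [mem_filter] at hc
              rw [mem_singleton]
              have hne : c ≠ g e := fun h5 => n1 (h5 ▸ hc.2)
              revert hne
              cases c <;> cases g e <;> simp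
            exact (card_le_card hs).trans (by simp)
          omega
        · omega)
  refine ⟨fun e => if tl e ∈ Rt then g e else f e, fun e he => if_pos he, ?_⟩
  intro c U hU
  by_cases hdis' : Disjoint U (R c)
  · obtain ⟨e, he, h3, h4⟩ := hf c U hU hdis'
    obtain ⟨h5, h6⟩ := mem_filter.1 he
    exact ⟨e, h5, (if_neg h6).trans h3, h4⟩
  · rw [Finset.not_disjoint_iff] at hdis'
    obtain ⟨v, hvU, hv⟩ := hdis'
    rw [mem_union, mem_filter] at hv
    rcases hv with hv | ⟨-, e, he, h3, h4⟩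
    · exact absurd hv (Finset.disjoint_left.1 hU.2.2 hvU)
    · obtain ⟨h5, h6⟩ := mem_filter.1 he
      exact ⟨e, h5, (if_pos h6).trans h3, Finset.disjoint_right.1 hU.2.2 h6,
        hU.2.1 v hvU _ h4⟩

end Wood3
end

section
/-!
# Balanced colourings of one side
-/
open Finset Wood2

namespace Wood3

set_option linter.unusedSectionVars false

/-- rearranging a function -/
theorem exists_perm {X Y : Type} [Fintype X] [DecidableEq Y] (a b : X → Y)
    (h : ∀ y, (univ.filter fun x => a x = y).card = (univ.filter fun x => b x = y).card) :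
    ∃ σ : Equiv.Perm X, ∀ x, a (σ x) = b x := by
  classical
  have h1 : ∀ y, Nonempty ({x // b x = y} ≃ {x // a x = y}) := by
    intro y
    rw [← Fintype.card_eq, Fintype.card_subtype, Fintype.card_subtype]
    exact (h y).symm
  let e : ∀ y, {x // b x = y} ≃ {x // a x = y} := fun y => (h1 y).some
  refine ⟨(Equiv.sigmaFiberEquiv b).symm.trans
    ((Equiv.sigmaCongrRight e).trans (Equiv.sigmaFiberEquiv a)), fun x => ?_⟩
  exact (e (b x) ⟨x, rfl⟩).2

/-- two functions with almost equal values -/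
theorem bal_range {k : ℕ} (n : Fin k → ℕ) (hn : ∀ c d, n c ≤ n d + 1) (c : Fin k) :
    (∑ i, n i) / k ≤ n c ∧ n c ≤ (∑ i, n i) / k + 1 := by
  have hk : 0 < k := Nat.lt_of_le_of_lt (Nat.zero_le _) c.isLt
  have h1 : ∑ _i : Fin k, n c < ∑ i, (n i + 1) :=
    sum_lt_sum (fun i _ => hn c i) ⟨c, mem_univ _, Nat.lt_succ_self _⟩
  have h2 : ∑ i, n i < ∑ _i : Fin k, (n c + 1) :=
    sum_lt_sum (fun i _ => hn i c) ⟨c, mem_univ _, Nat.lt_succ_self _⟩
  rw [sum_add_distrib] at h1
  simp only [sum_const, card_univ, Fintype.card_fin, smul_eq_mul, mul_one] at h1 h2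
  constructor
  · have := (Nat.div_lt_iff_lt_mul hk).2 (by rw [mul_comm] at h2; exact h2)
    omega
  · by_contra hcon
    push Not at hcon
    have h3 : (∑ i, n i) / k + 2 ≤ n c := hcon
    have h4 := Nat.mul_le_mul_left k h3
    have h5 := Nat.div_add_mod (∑ i, n i) k
    have h6 := Nat.mod_lt (∑ i, n i) hk
    have h7 : k * ((∑ i, n i) / k + 2) = k * ((∑ i, n i) / k) + 2 * k := by ring
    omega

theorem bal_eq {k : ℕ} (n m : Fin k → ℕ) (hn : ∀ c d, n c ≤ n d + 1) (hm : ∀ c d, m c ≤ m d + 1)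
    (h : ∑ i, n i = ∑ i, m i) :
    ∀ y, (univ.filter fun x => n x = y).card = (univ.filter fun x => m x = y).card := by
  classical
  set q := (∑ i, n i) / k with hq
  have a1 : ∀ c, q ≤ n c ∧ n c ≤ q + 1 := bal_range n hn
  have a2 : ∀ c, q ≤ m c ∧ m c ≤ q + 1 := by
    intro c
    have := bal_range m hm c
    rw [← h] at this
    exact this
  have key : ∀ l : Fin k → ℕ, (∀ c, q ≤ l c ∧ l c ≤ q + 1) →
      ∑ i, l i = k * q + (univ.filter fun x => l x = q + 1).card ∧
      (univ.filter fun x => l x = q).card + (univ.filter fun x => l x = q + 1).card = k := by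
    intro l hl
    constructor
    · have : ∀ i, l i = q + (if l i = q + 1 then 1 else 0) := by
        intro i
        have := hl i
        split_ifs <;> omega
      calc ∑ i, l i = ∑ i, (q + (if l i = q + 1 then 1 else 0)) := sum_congr rfl fun i _ => this i
        _ = _ := by
          rw [sum_add_distrib, card_filter]
          simp
    · rw [← card_union_of_disjoint]
      · have : (univ.filter fun x => l x = q) ∪ (univ.filter fun x => l x = q + 1) = univ := by
          rw [eq_univ_iff_forall]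
          intro x
          rw [mem_union, mem_filter, mem_filter]
          have := hl x
          have h3 : l x = q ∨ l x = q + 1 := by omega
          exact h3.imp (fun h => ⟨mem_univ _, h⟩) (fun h => ⟨mem_univ _, h⟩)
        rw [this, card_univ, Fintype.card_fin]
      · rw [Finset.disjoint_left]
        intro x hx hx'
        rw [mem_filter] at hx hx'
        omega
  obtain ⟨b1, b2⟩ := key n a1
  obtain ⟨b3, b4⟩ := key m a2
  intro y
  by_cases y1 : y = q
  · rw [y1]; omega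
  · by_cases y2 : y = q + 1
    · rw [y2]; omega
    · have c1 : (univ.filter fun x => n x = y) = ∅ := by
        rw [filter_eq_empty_iff]
        intro x _ h3
        have := a1 x
        omega
      have c2 : (univ.filter fun x => m x = y) = ∅ := by
        rw [filter_eq_empty_iff]
        intro x _ h3
        have := a2 x
        omega
      rw [c1, c2]

variable {V A : Type} [Fintype V] [DecidableEq V] [DecidableEq A] [Fintype A]

/-- pairing the elements of a finite set -/
theorem exists_pairing : ∀ (n : ℕ) (X : Finset A), X.card = n → ∃ τ : A → A, (∀ e, τ (τ e) = e) ∧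
    (∀ e, e ∉ X → τ e = e) ∧ ∀ g : A → Bool, Val τ g →
      (X.filter fun e => g e = true).card ≤ (X.filter fun e => g e = false).card + 1 ∧
      (X.filter fun e => g e = false).card ≤ (X.filter fun e => g e = true).card + 1 := by
  intro n
  induction n using Nat.strong_induction_on with
  | _ n ih =>
    intro X hX
    by_cases hn : n ≤ 1
    · refine ⟨id, fun _ => rfl, fun _ _ => rfl, fun g _ => ?_⟩
      have h1 := card_filter_le X (fun e => g e = true)
      have h2 := card_filter_le X (fun e => g e = false)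
      omega
    · obtain ⟨x, hx, y, hy, hxy⟩ := one_lt_card.1 (show 1 < X.card by omega)
      have hyx : y ∈ X.erase x := mem_erase.2 ⟨hxy.symm, hy⟩
      have hc : ((X.erase x).erase y).card < n := by
        rw [card_erase_of_mem hyx, card_erase_of_mem hx]
        omega
      obtain ⟨τ', h1, h2, h3⟩ := ih _ hc _ rfl
      have hx' : x ∉ (X.erase x).erase y := by simp
      have hy' : y ∉ (X.erase x).erase y := by simp
      have nx : ∀ e, e ≠ x → τ' e ≠ x := by
        intro e he h4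
        apply he
        rw [← h1 e, h4, h2 x hx']
      have ny : ∀ e, e ≠ y → τ' e ≠ y := by
        intro e he h4
        apply he
        rw [← h1 e, h4, h2 y hy']
      let τ : A → A := fun e => if e = x then y else if e = y then x else τ' e
      have tx : τ x = y := if_pos rfl
      have ty : τ y = x := by
        change (if y = x then y else if y = y then x else τ' y) = x
        rw [if_neg hxy.symm, if_pos rfl]
      have tn : ∀ e, e ≠ x → e ≠ y → τ e = τ' e := by
        intro e a b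
        change (if e = x then y else if e = y then x else τ' e) = τ' e
        rw [if_neg a, if_neg b]
      refine ⟨τ, ?_, ?_, ?_⟩
      · intro e
        by_cases a : e = x
        · rw [a, tx, ty]
        · by_cases b : e = y
          · rw [b, ty, tx]
          · rw [tn e a b, tn _ (nx e a) (ny e b), h1]
      · intro e he
        have a : e ≠ x := fun h => he (h ▸ hx)
        have b : e ≠ y := fun h => he (h ▸ hy)
        rw [tn e a b]
        exact h2 e fun h => he (mem_of_mem_erase (mem_of_mem_erase h))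
      · intro g hg
        have hg' : Val τ' g := by
          intro e he
          have hm : e ∈ (X.erase x).erase y := by
            by_contra hm
            exact he (h2 e hm)
          have a : e ≠ x := fun h => hx' (h ▸ hm)
          have b : e ≠ y := fun h => hy' (h ▸ hm)
          have := hg e (by rw [tn e a b]; exact he)
          rwa [tn e a b] at this
        have hgxy : g y ≠ g x := by
          have := hg x (by rw [tx]; exact hxy.symm)
          rwa [tx] at this
        obtain ⟨h4, h5⟩ := h3 g hg'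
        have hcnt : ∀ b : Bool, (X.filter fun e => g e = b).card =
            (((X.erase x).erase y).filter fun e => g e = b).card + 1 := by
          intro b
          have e1 : X = insert x (insert y ((X.erase x).erase y)) := by
            rw [insert_erase hyx, insert_erase hx]
          have n1 : x ∉ insert y ((X.erase x).erase y) := by
            rw [insert_erase hyx]
            exact notMem_erase _ _
          conv_lhs => rw [e1]
          rw [card_filter, card_filter, sum_insert n1, sum_insert hy']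
          revert hgxy
          cases g x <;> cases g y <;> cases b <;> simp [add_comm]
        rw [hcnt true, hcnt false]
        omega

/-- the number of arcs of colour `i` in `X` -/
def cnt {k : ℕ} (X : Finset A) (f : A → Fin k) (i : Fin k) : ℕ := (X.filter fun e => f e = i).card

theorem sum_cnt {k : ℕ} (X : Finset A) (f : A → Fin k) : ∑ i, cnt X f i = X.card := by
  rw [card_eq_sum_card_fiberwise (f := f) (t := univ) (fun _ _ => mem_univ _)]
  rfl

theorem rebal {r : V → V → Prop} (hrefl : ∀ v, r v v) (htr : ∀ u v w, r u v → r v w → r u w)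
    {Rt : Finset V} (hRt : Dn r Rt) {tl hd : A → V} {S : Finset A} (hS : ∀ e ∈ S, r (tl e) (hd e))
    {k : ℕ} {f : A → Fin k} (hf : Gd r Rt tl hd S k f) {X : Finset A}
    (hX : ∀ e ∈ X, e ∈ S ∧ tl e ∈ Rt) {c d : Fin k} (hcd : c ≠ d) :
    ∃ f' : A → Fin k, Gd r Rt tl hd S k f' ∧ (∀ i, i ≠ c → i ≠ d → cnt X f' i = cnt X f i) ∧
      cnt X f' c + cnt X f' d = cnt X f c + cnt X f d ∧ cnt X f' c ≤ cnt X f' d + 1 ∧
      cnt X f' d ≤ cnt X f' c + 1 := by
  classical
  let T : Finset A := S.filter fun e => f e = c ∨ f e = d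
  have hT2 : ∀ U, Fam r Rt U → 2 ≤ (ent tl hd T U).card := by
    intro U hU
    obtain ⟨a, ha, a1, a2⟩ := hf c U hU
    obtain ⟨b, hb, b1, b2⟩ := hf d U hU
    have hab : a ≠ b := by
      rintro rfl
      exact hcd (a1.symm.trans b1)
    have hsub : ({a, b} : Finset A) ⊆ ent tl hd T U := by
      intro x hx
      rw [mem_insert, mem_singleton] at hx
      rcases hx with rfl | rfl
      · exact mem_ent.2 ⟨mem_filter.2 ⟨ha, Or.inl a1⟩, a2⟩
      · exact mem_ent.2 ⟨mem_filter.2 ⟨hb, Or.inr b1⟩, b2⟩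
    have := card_le_card hsub
    rwa [card_pair hab] at this
  obtain ⟨σ, hσ, hext⟩ := half_colour hrefl htr hRt (H := T)
    (fun e he => hS e (mem_filter.1 he).1) hT2
  obtain ⟨τ, hτ, -, hbal⟩ := exists_pairing _ (X.filter fun e => f e = c ∨ f e = d) rfl
  obtain ⟨g, hg1, hg2⟩ := exists_val2 σ τ hσ hτ
  obtain ⟨F, hF1, hF2⟩ := hext g hg1
  let f' : A → Fin k := fun e => if e ∈ T then (if F e = true then c else d) else f e
  have fT : ∀ e ∈ T, F e = true → f' e = c := fun e he h => by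
    change (if e ∈ T then (if F e = true then c else d) else f e) = c
    rw [if_pos he, if_pos h]
  have fT' : ∀ e ∈ T, F e = false → f' e = d := fun e he h => by
    change (if e ∈ T then (if F e = true then c else d) else f e) = d
    rw [if_pos he, h]
    rfl
  have fN : ∀ e, e ∉ T → f' e = f e := fun e he => if_neg he
  have hXT : ∀ e ∈ X, (e ∈ T ↔ f e = c ∨ f e = d) := fun e he =>
    ⟨fun h => (mem_filter.1 h).2, fun h => mem_filter.2 ⟨(hX e he).1, h⟩⟩
  have hc : cnt X f' c = ((X.filter fun e => f e = c ∨ f e = d).filter fun e => g e = true).card := by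
    unfold cnt
    congr 1
    ext e
    rw [mem_filter, mem_filter, mem_filter]
    constructor
    · rintro ⟨h1, h2⟩
      by_cases h3 : e ∈ T
      · refine ⟨⟨h1, (mem_filter.1 h3).2⟩, ?_⟩
        rw [← hF1 e (hX e h1).2]
        by_contra h4
        rw [fT' e h3 (Bool.eq_false_iff.2 h4)] at h2
        exact hcd h2.symm
      · exfalso
        rw [fN e h3] at h2
        exact h3 ((hXT e h1).2 (Or.inl h2))
    · rintro ⟨⟨h1, h2⟩, h3⟩
      refine ⟨h1, fT e ((hXT e h1).2 h2) ?_⟩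
      rw [hF1 e (hX e h1).2]
      exact h3
  have hd' : cnt X f' d = ((X.filter fun e => f e = c ∨ f e = d).filter fun e => g e = false).card := by
    unfold cnt
    congr 1
    ext e
    rw [mem_filter, mem_filter, mem_filter]
    constructor
    · rintro ⟨h1, h2⟩
      by_cases h3 : e ∈ T
      · refine ⟨⟨h1, (mem_filter.1 h3).2⟩, ?_⟩
        rw [← hF1 e (hX e h1).2]
        by_contra h4
        rw [Bool.not_eq_false] at h4
        rw [fT e h3 h4] at h2
        exact hcd h2
      · exfalso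
        rw [fN e h3] at h2
        exact h3 ((hXT e h1).2 (Or.inr h2))
    · rintro ⟨⟨h1, h2⟩, h3⟩
      refine ⟨h1, fT' e ((hXT e h1).2 h2) ?_⟩
      rw [hF1 e (hX e h1).2]
      exact h3
  obtain ⟨b1, b2⟩ := hbal g hg2
  refine ⟨f', ?_, ?_, ?_, ?_, ?_⟩
  · intro i U hU
    by_cases hi : i = c
    · obtain ⟨e, he, h1, h2⟩ := hF2 true U hU
      exact ⟨e, (mem_filter.1 he).1, by rw [fT e he h1, hi], h2⟩
    · by_cases hj : i = d
      · obtain ⟨e, he, h1, h2⟩ := hF2 false U hU
        exact ⟨e, (mem_filter.1 he).1, by rw [fT' e he h1, hj], h2⟩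
      · obtain ⟨e, he, h1, h2⟩ := hf i U hU
        refine ⟨e, he, ?_, h2⟩
        rw [fN e, h1]
        intro h3
        rcases (mem_filter.1 h3).2 with h4 | h4
        · exact hi (h1.symm.trans h4)
        · exact hj (h1.symm.trans h4)
  · intro i hi hj
    unfold cnt
    congr 1
    ext e
    rw [mem_filter, mem_filter]
    constructor
    · rintro ⟨h1, h2⟩
      refine ⟨h1, ?_⟩
      by_cases h3 : e ∈ T
      · exfalso
        cases h4 : F e
        · rw [fT' e h3 h4] at h2
          exact hj h2.symm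
        · rw [fT e h3 h4] at h2
          exact hi h2.symm
      · rw [fN e h3] at h2
        exact h2
    · rintro ⟨h1, h2⟩
      refine ⟨h1, ?_⟩
      rw [fN e, h2]
      intro h3
      rcases (mem_filter.1 h3).2 with h4 | h4
      · exact hi (h2.symm.trans h4)
      · exact hj (h2.symm.trans h4)
  · have e1 : cnt X f c + cnt X f d = (X.filter fun e => f e = c ∨ f e = d).card := by
      unfold cnt
      rw [← card_union_of_disjoint]
      · congr 1
        ext e
        simp only [mem_union, mem_filter]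
        tauto
      · rw [Finset.disjoint_left]
        intro e h1 h2
        rw [mem_filter] at h1 h2
        exact hcd (h1.2.symm.trans h2.2)
    rw [e1, hc, hd']
    rw [← card_union_of_disjoint]
    · congr 1
      ext e
      simp only [mem_union, mem_filter]
      cases g e <;> simp
    · rw [Finset.disjoint_left]
      intro e h1 h2
      rw [mem_filter] at h1 h2
      rw [h1.2] at h2
      exact absurd h2.2 (by decide)
  · rw [hc, hd']; exact b1
  · rw [hc, hd']; exact b2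

/-- **balanced colourings** -/
theorem exists_bal {r : V → V → Prop} (hrefl : ∀ v, r v v)
    (htr : ∀ u v w, r u v → r v w → r u w) {Rt : Finset V} (hRt : Dn r Rt) {tl hd : A → V}
    {S : Finset A} (hS : ∀ e ∈ S, r (tl e) (hd e)) {k : ℕ} (hk : 0 < k)
    (hcut : ∀ U, Fam r Rt U → k ≤ (ent tl hd S U).card) {X : Finset A}
    (hX : ∀ e ∈ X, e ∈ S ∧ tl e ∈ Rt) :
    ∃ f : A → Fin k, Gd r Rt tl hd S k f ∧ ∀ c d, cnt X f c ≤ cnt X f d + 1 := by
  classical
  have : Nonempty (Fin k) := ⟨⟨0, hk⟩⟩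
  obtain ⟨f0, hf0⟩ : ∃ f : A → Fin k, Gd r Rt tl hd S k f := by
    obtain ⟨f, hf⟩ := edmonds (C := Fin k) hrefl htr (Rt := Rt) (tl := tl) (hd := hd) _ S
      (fun _ => Rt) rfl hS (fun _ => hRt) (fun _ => Subset.refl _) (by
        intro U hU
        refine le_trans ?_ (hcut U hU)
        exact (card_le_univ _).trans (by simp))
    exact ⟨f, fun i U hU => hf i U hU hU.2.2⟩
  obtain ⟨f, hf, hmin⟩ := exists_min_image (univ.filter fun f : A → Fin k => Gd r Rt tl hd S k f)
    (fun f => ∑ i, (cnt X f i) ^ 2) ⟨f0, mem_filter.2 ⟨mem_univ _, hf0⟩⟩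
  rw [mem_filter] at hf
  refine ⟨f, hf.2, fun c d => ?_⟩
  by_contra hcon
  push Not at hcon
  have hcd : c ≠ d := by
    rintro rfl
    omega
  obtain ⟨f', h1, h2, h3, h4, h5⟩ := rebal hrefl htr hRt hS hf.2 hX hcd
  have h6 := hmin f' (mem_filter.2 ⟨mem_univ _, h1⟩)
  have hdm : d ∈ (univ : Finset (Fin k)).erase c := mem_erase.2 ⟨hcd.symm, mem_univ _⟩
  have hs : ∀ F : A → Fin k, ∑ i, (cnt X F i) ^ 2 = (cnt X F c) ^ 2 + ((cnt X F d) ^ 2 +
      ∑ i ∈ ((univ : Finset (Fin k)).erase c).erase d, (cnt X F i) ^ 2) := by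
    intro F
    rw [add_sum_erase _ (fun i => (cnt X F i) ^ 2) hdm,
      add_sum_erase _ (fun i => (cnt X F i) ^ 2) (mem_univ c)]
  have he : ∑ i ∈ ((univ : Finset (Fin k)).erase c).erase d, (cnt X f' i) ^ 2 =
      ∑ i ∈ ((univ : Finset (Fin k)).erase c).erase d, (cnt X f i) ^ 2 := by
    refine sum_congr rfl fun i hi => ?_
    rw [mem_erase, mem_erase] at hi
    rw [h2 i hi.2.1 hi.1]
  rw [hs f, hs f', he] at h6
  have h7 : (cnt X f c) ^ 2 + (cnt X f d) ^ 2 ≤ (cnt X f' c) ^ 2 + (cnt X f' d) ^ 2 := by omega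
  zify at h7 h3 h4 h5 hcon
  nlinarith

end Wood3
end

section
/-!
# Two colours for the class K5
-/
open Finset Wood2

namespace Wood3

set_option linter.unusedSectionVars false

namespace Dg

variable {V A : Type} [Fintype V] [DecidableEq V] [DecidableEq A] [Fintype A]

/-- up-sets inside the middle part -/
theorem Nf.fam1 {k : ℕ} {D : Dg V A} (h : Nf k D) {U : Finset V}
    (hU : Fam D.r (M k D)ᶜ U) : Cut D.r U ∧ U ⊆ M k D := by
  have hsub : U ⊆ M k D := by
    intro x hx
    by_contra hn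
    exact Finset.disjoint_left.1 hU.2.2 hx (mem_compl.2 hn)
  refine ⟨⟨hU.1, fun h1 => ?_, hU.2.1⟩, hsub⟩
  obtain ⟨x, hx⟩ := hU.1
  obtain ⟨s, hs, _⟩ := exists_src h.mn.ok.refl h.mn.ok.tr x
  have : s ∈ M k D := hsub (h1 ▸ mem_univ s)
  exact (mem_M.1 this).1 hs

theorem Nf.fam1' {k : ℕ} {D : Dg V A} {U : Finset V}
    (h1 : U.Nonempty) (h2 : Up D.r U) (h3 : U ⊆ M k D) : Fam D.r (M k D)ᶜ U :=
  ⟨h1, h2, Finset.disjoint_left.2 fun _ hx hx' => (mem_compl.1 hx') (h3 hx)⟩

/-- down-sets outside the middle part -/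
theorem Nf.fam2 {k : ℕ} (hk : 2 ≤ k) {D : Dg V A} (h : Nf k D) {U : Finset V}
    (hU : Fam D.op.r (M k D) U) : Cut D.op.r U := by
  refine ⟨hU.1, fun h1 => ?_, hU.2.1⟩
  obtain ⟨x, hx⟩ := hU.1
  obtain ⟨s, hs, _⟩ := exists_snk h.mn.ok.refl h.mn.ok.tr x
  exact Finset.disjoint_left.1 hU.2.2 (h1 ▸ mem_univ s) (h.snk_M hk hs)

theorem Nf.fam2' {k : ℕ} {D : Dg V A} (h : Nf k D) {U : Finset V} (hU : Cut D.r U) :
    Fam D.op.r (M k D) (U ∪ M k D)ᶜ := by
  refine ⟨?_, ?_, ?_⟩
  · have h1 : ∃ x, x ∉ U := by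
      by_contra hn
      push Not at hn
      exact hU.2.1 (eq_univ_iff_forall.2 hn)
    obtain ⟨x, hx⟩ := h1
    obtain ⟨s, hs, hsx⟩ := exists_src h.mn.ok.refl h.mn.ok.tr x
    refine ⟨s, ?_⟩
    rw [mem_compl, mem_union]
    rintro (h1 | h1)
    · exact hx (hU.2.2 _ h1 _ hsx)
    · exact (mem_M.1 h1).1 hs
  · intro u hu v hvu
    rw [mem_compl] at hu ⊢
    exact fun hv => hu ((hU.2.2.union h.M_up) v hv u hvu)
  · rw [Finset.disjoint_left]
    intro x hx hx'
    exact (mem_compl.1 hx) (mem_union_right _ hx')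

/-- an arc from a minimal vertex into a maximal vertex above two minimal classes lies in every
cut that contains a minimal vertex below two maximal classes -/
theorem Ok.core {k : ℕ} {D : Dg V A} (h : Ok k D) {U : Finset V} (hU : Up D.r U) {s x : V}
    (hs : s ∈ U) (hs1 : D.op.Snk s) (hs2 : ¬ D.op.One s) (hx : D.Snk x) (hx1 : ¬ D.One x) :
    x ∈ U := by
  rcases h.K s x with h1 | h1 | ⟨a, t, h1, h2, h3⟩
  · exact absurd h1 hs2
  · exact absurd h1 hx1
  · exact hU s hs x (h.tr _ _ _ (hs1 a h1) (h.tr _ _ _ h3 (hx t h2)))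

theorem Nf.false2 {D : Dg V A} (h : Nf 2 D) : False := by
  classical
  have hk0 : 0 < 2 := by norm_num
  have hMu := h.M_up
  obtain ⟨σ1, hσ1, hext1⟩ := half_colour (Rt := (M 2 D)ᶜ) (H := D.S.filter fun e => D.hd e ∈ M 2 D)
    (tl := D.tl) (hd := D.hd) h.mn.ok.refl h.mn.ok.tr (by
      intro u hu v hvu
      rw [mem_compl] at hu ⊢
      exact fun hv => hu (hMu v hv u hvu)) (fun e he => h.mn.ok.comp e (mem_filter.1 he).1) (by
      intro U hU
      obtain ⟨h1, h2⟩ := h.fam1 hU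
      refine (h.mn.ok.val U h1).trans (card_le_card fun e he => ?_)
      rw [mem_E] at he
      rw [mem_ent, mem_filter]
      exact ⟨⟨he.1, h2 he.2.2⟩, he.2⟩)
  obtain ⟨σ2, hσ2, hext2⟩ := half_colour (r := D.op.r) (Rt := M 2 D)
    (H := D.S.filter fun e => D.tl e ∉ M 2 D)
    (tl := D.hd) (hd := D.tl) h.mn.ok.refl h.mn.op.ok.tr (fun u hu v hvu => hMu u hu v hvu)
      (fun e he => h.mn.ok.comp e (mem_filter.1 he).1) (by
      intro U hU
      have h1 := h.fam2 le_rfl hU
      refine (h.mn.op.ok.val U h1).trans (card_le_card fun e he => ?_)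
      rw [mem_E] at he
      rw [mem_ent, mem_filter]
      exact ⟨⟨he.1, fun h3 => Finset.disjoint_left.1 hU.2.2 he.2.2 h3⟩, he.2⟩)
  obtain ⟨g, hg1, hg2⟩ := exists_val2 σ1 σ2 hσ1 hσ2
  obtain ⟨f1, f1a, f1b⟩ := hext1 g hg1
  obtain ⟨f2, f2a, f2b⟩ := hext2 g hg2
  let f : A → Bool := fun e => if D.tl e ∈ M 2 D then f1 e else f2 e
  have k1 : ∀ e ∈ D.S, D.hd e ∈ M 2 D → f e = f1 e := by
    intro e _ h1
    by_cases h2 : D.tl e ∈ M 2 D
    · exact if_pos h2
    · rw [show f e = f2 e from if_neg h2, f2a e h1, f1a e (mem_compl.2 h2)]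
  have k2 : ∀ e, D.tl e ∉ M 2 D → f e = f2 e := fun e h1 => if_neg h1
  have main : ∀ b U, Cut D.r U → ∃ e ∈ D.S, f e = b ∧ D.tl e ∉ U ∧ D.hd e ∈ U := by
    intro b U hU
    by_cases hA : ∀ s ∈ U, D.op.Snk s → D.op.One s
    · obtain ⟨x, hx⟩ := hU.1
      obtain ⟨t, ht, hxt⟩ := exists_snk h.mn.ok.refl h.mn.ok.tr x
      obtain ⟨e, he, h1, h2, h3⟩ := f1b b (U ∩ M 2 D) (Nf.fam1'
        ⟨t, mem_inter.2 ⟨hU.2.2 _ hx _ hxt, h.snk_M le_rfl ht⟩⟩ (hU.2.2.inter hMu)
        inter_subset_right)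
      rw [mem_filter] at he
      rw [mem_inter] at h2 h3
      refine ⟨e, he.1, by rw [k1 e he.1 he.2, h1], fun h4 => ?_, h3.1⟩
      have h5 : D.op.Snk (D.tl e) := by
        rcases h.tl_or hk0 he.1 with h6 | h6
        · exact absurd ⟨h4, h6⟩ h2
        · exact h6
      have h6 := hA _ h4 h5
      have h7 := h.pend_ts le_rfl h5 h6
      exact h.mn.op.bb h7 h6 he.1 (h.mn.ok.refl _) (Nf.hd_ts he.1 he.2).1
    · push Not at hA
      obtain ⟨s, hs, hs1, hs2⟩ := hA
      obtain ⟨e, he, h1, h2, h3⟩ := f2b b _ (h.fam2' hU)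
      rw [mem_filter] at he
      rw [mem_compl, mem_union] at h2 h3
      rw [not_not] at h2
      push Not at h3
      refine ⟨e, he.1, by rw [k2 e he.2, h1], h3.1, ?_⟩
      rcases h2 with h2 | h2
      · exact h2
      have h5 : D.op.Snk (D.tl e) := (h.tl_or hk0 he.1).resolve_left h3.2
      have h6 := Nf.hd_ts he.1 h2
      refine h.mn.ok.core hU.2.2 hs hs1 hs2 h6.1 fun h7 => ?_
      exact h.mn.bb h6 h7 he.1 (h.mn.ok.refl _) h5
  apply h.mn.bad
  refine ⟨fun e => if f e then 1 else 0, fun i U hU => ?_⟩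
  by_cases hi : i = 1
  · obtain ⟨e, he, h1, h2⟩ := main true U hU
    refine ⟨e, he, ?_, h2⟩
    change (if f e = true then (1 : Fin 2) else 0) = i
    rw [if_pos h1, hi]
  · obtain ⟨e, he, h1, h2⟩ := main false U hU
    refine ⟨e, he, ?_, h2⟩
    change (if f e = true then (1 : Fin 2) else 0) = i
    rw [h1]
    revert hi
    revert i
    decide

/-- **two colours** -/
theorem two {D : Dg V A} (h : Ok 2 D) : Col 2 D := by
  by_contra hb
  obtain ⟨W, i1, i2, D0, h0⟩ := exists_Mn V D h hb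
  obtain ⟨D1, h1⟩ := exists_Nf' (k := 2) le_rfl h0
  exact h1.false2

end Dg

end Wood3
end

section
/-!
# Exchange of heads
-/
open Finset Wood2

namespace Wood3

set_option linter.unusedSectionVars false

namespace Dg

variable {V A : Type} [Fintype V] [DecidableEq V] [DecidableEq A] [Fintype A]

/-- permuting the heads -/
def sw (D : Dg V A) (π : Equiv.Perm A) : Dg V A := ⟨D.r, D.tl, fun e => D.hd (π e), D.S⟩

theorem E_sw_card {D : Dg V A} {π : Equiv.Perm A} (hS : ∀ e ∈ D.S, D.r (D.tl e) (D.hd e))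
    (hS' : ∀ e ∈ D.S, D.r (D.tl e) (D.hd (π e))) (hπ : ∀ e, π e ∈ D.S ↔ e ∈ D.S)
    {U : Finset V} (hU : Up D.r U) : ((D.sw π).E U).card = (D.E U).card := by
  have h1 := card_ent_add (tl := D.tl) (hd := D.hd) (S := D.S) hS hU
  have h2 := card_ent_add (tl := D.tl) (hd := fun e => D.hd (π e)) (S := D.S) hS' hU
  have h3 : (D.S.filter fun e => D.hd (π e) ∈ U).card = (D.S.filter fun e => D.hd e ∈ U).card := by
    refine card_bij (fun e _ => π e) ?_ ?_ ?_
    · intro e he
      rw [mem_filter] at he ⊢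
      exact ⟨(hπ e).2 he.1, he.2⟩
    · intro a _ b _ hab
      exact π.injective hab
    · intro b hb
      rw [mem_filter] at hb
      refine ⟨π.symm b, mem_filter.2 ⟨(hπ _).1 ?_, ?_⟩, π.apply_symm_apply b⟩
      · rw [π.apply_symm_apply]; exact hb.1
      · rw [π.apply_symm_apply]; exact hb.2
  change (ent D.tl (fun e => D.hd (π e)) D.S U).card = (ent D.tl D.hd D.S U).card
  omega

/-- exchangeable arcs -/
structure Ex (D : Dg V A) (e1 e2 : A) : Prop where
  m1 : e1 ∈ D.S
  m2 : e2 ∈ D.S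
  r1 : D.r (D.tl e1) (D.hd e2)
  r2 : D.r (D.tl e2) (D.hd e1)

theorem Ex.memS {D : Dg V A} {e1 e2 : A} (h : Ex D e1 e2) (e : A) :
    Equiv.swap e1 e2 e ∈ D.S ↔ e ∈ D.S := by
  by_cases a : e = e1
  · subst a
    rw [Equiv.swap_apply_left]
    exact ⟨fun _ => h.m1, fun _ => h.m2⟩
  · by_cases b : e = e2
    · subst b
      rw [Equiv.swap_apply_right]
      exact ⟨fun _ => h.m2, fun _ => h.m1⟩
    · rw [Equiv.swap_apply_of_ne_of_ne a b]

theorem Ex.comp {D : Dg V A} {e1 e2 : A} (h : Ex D e1 e2)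
    (hS : ∀ e ∈ D.S, D.r (D.tl e) (D.hd e)) (e : A) (he : e ∈ D.S) :
    D.r (D.tl e) (D.hd (Equiv.swap e1 e2 e)) := by
  by_cases a : e = e1
  · subst a
    rw [Equiv.swap_apply_left]
    exact h.r1
  · by_cases b : e = e2
    · subst b
      rw [Equiv.swap_apply_right]
      exact h.r2
    · rw [Equiv.swap_apply_of_ne_of_ne a b]
      exact hS e he

theorem Ex.E_card {D : Dg V A} {e1 e2 : A} (h : Ex D e1 e2)
    (hS : ∀ e ∈ D.S, D.r (D.tl e) (D.hd e)) {U : Finset V} (hU : Up D.r U) :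
    ((D.sw (Equiv.swap e1 e2)).E U).card = (D.E U).card :=
  E_sw_card hS (h.comp hS) h.memS hU

theorem Ex.ok {k : ℕ} {D : Dg V A} {e1 e2 : A} (h : Ex D e1 e2) (ho : Ok k D) :
    Ok k (D.sw (Equiv.swap e1 e2)) := by
  refine ⟨ho.refl, ho.tr, h.comp ho.comp, ho.K, fun U hU => ?_⟩
  rw [h.E_card ho.comp hU.2.2]
  exact ho.val U hU

/-- (X) -/
theorem Ex.col {k : ℕ} {D : Dg V A} {e1 e2 : A} (h : Ex D e1 e2) (ho : Ok k D)
    (hc : Col k (D.sw (Equiv.swap e1 e2))) : Col k D := by
  classical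
  obtain ⟨f, hf⟩ := hc
  by_cases h12 : f e1 = f e2
  · refine ⟨f, fun i U hU => ?_⟩
    obtain ⟨e, he, h1, h2, h3⟩ := hf i U hU
    change D.tl e ∉ U at h2
    change D.hd (Equiv.swap e1 e2 e) ∈ U at h3
    by_cases a : e = e1
    · subst a
      rw [Equiv.swap_apply_left] at h3
      by_cases b : D.hd e ∈ U
      · exact ⟨e, he, h1, h2, b⟩
      · exact ⟨e2, h.m2, by rw [← h12]; exact h1, fun h4 => b (hU.2.2 _ h4 _ h.r2), h3⟩
    · by_cases b : e = e2
      · subst b
        rw [Equiv.swap_apply_right] at h3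
        by_cases b : D.hd e ∈ U
        · exact ⟨e, he, h1, h2, b⟩
        · exact ⟨e1, h.m1, by rw [h12]; exact h1, fun h4 => b (hU.2.2 _ h4 _ h.r1), h3⟩
      · rw [Equiv.swap_apply_of_ne_of_ne a b] at h3
        exact ⟨e, he, h1, h2, h3⟩
  · let T : Finset A := D.S.filter fun e => f e = f e1 ∨ f e = f e2
    let DT : Dg V A := ⟨D.r, D.tl, D.hd, T⟩
    have hT1 : e1 ∈ T := mem_filter.2 ⟨h.m1, Or.inl rfl⟩
    have hT2 : e2 ∈ T := mem_filter.2 ⟨h.m2, Or.inr rfl⟩
    have hex : Ex DT e1 e2 := ⟨hT1, hT2, h.r1, h.r2⟩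
    have hTc : ∀ e ∈ DT.S, DT.r (DT.tl e) (DT.hd e) := fun e he => ho.comp e (mem_filter.1 he).1
    have hok : Ok 2 DT := by
      refine ⟨ho.refl, ho.tr, hTc, ho.K, fun U hU => ?_⟩
      rw [← hex.E_card hTc hU.2.2]
      obtain ⟨a, ha, a1, a2⟩ := hf (f e1) U hU
      obtain ⟨b, hb, b1, b2⟩ := hf (f e2) U hU
      have hab : a ≠ b := by
        rintro rfl
        exact h12 (a1.symm.trans b1)
      have hsub : ({a, b} : Finset A) ⊆ (DT.sw (Equiv.swap e1 e2)).E U := by
        intro x hx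
        rw [mem_insert, mem_singleton] at hx
        rcases hx with rfl | rfl
        · exact mem_E.2 ⟨mem_filter.2 ⟨ha, Or.inl a1⟩, a2⟩
        · exact mem_E.2 ⟨mem_filter.2 ⟨hb, Or.inr b1⟩, b2⟩
      have := card_le_card hsub
      rwa [card_pair hab] at this
    obtain ⟨g, hg⟩ := two hok
    refine ⟨fun e => if e ∈ T then (if g e = 0 then f e1 else f e2) else f e, fun i U hU => ?_⟩
    by_cases hi : i = f e1
    · obtain ⟨e, he, a1, a2⟩ := hg 0 U hU
      refine ⟨e, (mem_filter.1 he).1, ?_, a2⟩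
      change (if e ∈ T then (if g e = 0 then f e1 else f e2) else f e) = i
      rw [if_pos he, if_pos a1, hi]
    · by_cases hj : i = f e2
      · obtain ⟨e, he, a1, a2⟩ := hg 1 U hU
        refine ⟨e, (mem_filter.1 he).1, ?_, a2⟩
        change (if e ∈ T then (if g e = 0 then f e1 else f e2) else f e) = i
        rw [if_pos he, if_neg (by rw [a1]; decide), hj]
      · obtain ⟨e, he, a1, a2, a3⟩ := hf i U hU
        have hne1 : e ≠ e1 := by rintro rfl; exact hi a1.symm
        have hne2 : e ≠ e2 := by rintro rfl; exact hj a1.symm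
        change D.hd (Equiv.swap e1 e2 e) ∈ U at a3
        rw [Equiv.swap_apply_of_ne_of_ne hne1 hne2] at a3
        refine ⟨e, he, ?_, a2, a3⟩
        change (if e ∈ T then (if g e = 0 then f e1 else f e2) else f e) = i
        rw [if_neg, a1]
        intro h5
        rcases (mem_filter.1 h5).2 with h6 | h6
        · exact hi (a1.symm.trans h6)
        · exact hj (a1.symm.trans h6)

theorem Ex.mn {k : ℕ} {D : Dg V A} {e1 e2 : A} (h : Ex D e1 e2) (hm : Mn k D) :
    Mn k (D.sw (Equiv.swap e1 e2)) :=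
  ⟨h.ok hm.ok, fun hc => hm.bad (h.col hm.ok hc), hm.min⟩

theorem Ex.ts {k : ℕ} {D : Dg V A} {e1 e2 : A} (h : Ex D e1 e2) (ho : Ok k D) (x : V) :
    TS k (D.sw (Equiv.swap e1 e2)) x ↔ TS k D x := by
  have h1 : (D.sw (Equiv.swap e1 e2)).up x = D.up x := rfl
  constructor
  · rintro ⟨h2, h3⟩
    refine ⟨h2, ?_⟩
    rw [h1, h.E_card ho.comp (up_up ho.tr x)] at h3
    exact h3
  · rintro ⟨h2, h3⟩
    refine ⟨h2, ?_⟩
    rw [h1, h.E_card ho.comp (up_up ho.tr x)]
    exact h3

theorem Ex.nf {k : ℕ} {D : Dg V A} {e1 e2 : A} (h : Ex D e1 e2) (hn : Nf k D) :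
    Nf k (D.sw (Equiv.swap e1 e2)) := by
  refine ⟨h.mn hn.mn, ?_, ?_⟩
  · intro a b hab
    exact (Equiv.swap e1 e2).injective (hn.inj hab)
  · intro e he h1 x hx
    rw [h.ts hn.mn.ok] at h1
    exact hn.low _ ((h.memS e).2 he) h1 x hx

theorem Ex.M_eq {k : ℕ} {D : Dg V A} {e1 e2 : A} (h : Ex D e1 e2) (ho : Ok k D) :
    M k (D.sw (Equiv.swap e1 e2)) = M k D := by
  ext x
  rw [mem_M, mem_M]
  have : Q k (D.sw (Equiv.swap e1 e2)) x ↔ Q k D x := by
    constructor
    · rintro ⟨e, he, h1, h2⟩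
      rw [h.ts ho] at h2
      exact ⟨_, (h.memS e).2 he, h1, h2⟩
    · rintro ⟨e, he, h1, h2⟩
      refine ⟨Equiv.swap e1 e2 e, (h.memS e).2 he, ?_, by rw [h.ts ho]; exact h2⟩
      change D.hd (Equiv.swap e1 e2 (Equiv.swap e1 e2 e)) = x
      rw [Equiv.swap_apply_self]
      exact h1
  rw [this]
  exact Iff.rfl

/-- permuting the heads of mutually exchangeable arcs -/
theorem col_of_perm {k : ℕ} (X : Finset A) (τ : Equiv.Perm {x // x ∈ X}) :
    ∀ D : Dg V A, Ok k D → (∀ e ∈ X, e ∈ D.S) → (∀ e ∈ X, ∀ e' ∈ X, D.r (D.tl e) (D.hd e')) →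
      Col k (D.sw (Equiv.Perm.ofSubtype τ)) → Col k D := by
  classical
  induction τ using Equiv.Perm.swap_induction_on with
  | one =>
    intro D _ _ _ h
    rw [map_one] at h
    exact h
  | swap_mul f x y hxy ih =>
    intro D ho hX hr h
    rw [map_mul, Equiv.Perm.ofSubtype_swap_eq] at h
    have hex : Ex D x y := ⟨hX _ x.2, hX _ y.2, hr _ x.2 _ y.2, hr _ y.2 _ x.2⟩
    refine hex.col ho (ih _ (hex.ok ho) hX ?_ h)
    intro e he e' he'
    change D.r (D.tl e) (D.hd (Equiv.swap (x : A) y e'))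
    by_cases a : e' = x
    · rw [a, Equiv.swap_apply_left]
      exact hr _ he _ y.2
    · by_cases b : e' = y
      · rw [b, Equiv.swap_apply_right]
        exact hr _ he _ x.2
      · rw [Equiv.swap_apply_of_ne_of_ne a b]
        exact hr _ he _ he'

end Dg

end Wood3
end

section
/-!
# Chains of exchanges
-/
open Finset Wood2

namespace Wood3

set_option linter.unusedSectionVars false

namespace Dg

variable {V A : Type} [Fintype V] [DecidableEq V] [DecidableEq A] [Fintype A]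

open Classical in
/-- arcs from core minimal vertices to core maximal vertices -/
noncomputable def E1 (D : Dg V A) : Finset A :=
  D.S.filter fun e => (D.op.Snk (D.tl e) ∧ ¬ D.op.One (D.tl e)) ∧ (D.Snk (D.hd e) ∧ ¬ D.One (D.hd e))

theorem mem_E1 {D : Dg V A} {e : A} : e ∈ E1 D ↔ e ∈ D.S ∧
    (D.op.Snk (D.tl e) ∧ ¬ D.op.One (D.tl e)) ∧ (D.Snk (D.hd e) ∧ ¬ D.One (D.hd e)) := by
  simp [E1]

/-- normal forms with the largest number of core arcs -/
structure Mx (k : ℕ) (D : Dg V A) : Prop where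
  nf : Nf k D
  max : ∀ D' : Dg V A, Nf k D' → (E1 D').card ≤ (E1 D).card

theorem exists_Mx {k : ℕ} : ∀ (n : ℕ) (D : Dg V A), Fintype.card A - (E1 D).card = n → Nf k D →
    ∃ D' : Dg V A, Mx k D' := by
  intro n
  induction n using Nat.strong_induction_on with
  | _ n ih =>
    intro D hn h
    by_cases hmax : ∀ D' : Dg V A, Nf k D' → (E1 D').card ≤ (E1 D).card
    · exact ⟨D, h, hmax⟩
    · push Not at hmax
      obtain ⟨D', h1, h2⟩ := hmax
      refine ih _ ?_ D' rfl h1
      have h3 : (E1 D').card ≤ Fintype.card A := card_le_univ _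
      omega

/-- no arc from a pendant minimal vertex to a pendant maximal vertex -/
theorem Mn.no_T4 {k : ℕ} (hk : 0 < k) {D : Dg V A} (h : Mn k D) {e : A} (he : e ∈ D.S)
    (h1 : D.op.Snk (D.tl e)) (h2 : D.op.One (D.tl e)) (h3 : D.Snk (D.hd e)) : ¬ D.One (D.hd e) := by
  rintro ⟨b, hb⟩
  obtain ⟨c, hc⟩ := h2
  have a1 : ∀ y, D.r y (D.hd e) → D.r (D.tl e) y := fun y hy =>
    h.ok.tr _ _ _ (h1 b (hb _ (h.ok.comp e he))) (hb y hy)
  have a2 : ∀ y, D.r (D.tl e) y → D.r y (D.hd e) := fun y hy =>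
    h.ok.tr _ _ _ (hc y hy) (h3 c (hc _ (h.ok.comp e he)))
  obtain ⟨g, hg⟩ := card_pos.1 (lt_of_lt_of_le hk (h.ok.val _ (h.cut_up hk (D.tl e))))
  obtain ⟨g1, g2, g3⟩ := mem_E.1 hg
  rw [mem_up] at g2 g3
  exact g2 (a1 _ (h.ok.tr _ _ _ (h.ok.comp g g1) (a2 _ g3)))

/-- arcs from a minimal vertex to a pendant maximal vertex -/
def T2 (D : Dg V A) (e : A) : Prop :=
  e ∈ D.S ∧ D.op.Snk (D.tl e) ∧ D.Snk (D.hd e) ∧ D.One (D.hd e)

/-- arcs from a pendant minimal vertex to a core maximal vertex -/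
def T3 (D : Dg V A) (e : A) : Prop :=
  e ∈ D.S ∧ D.op.Snk (D.tl e) ∧ D.op.One (D.tl e) ∧ D.Snk (D.hd e) ∧ ¬ D.One (D.hd e)

/-- chains to a core maximal vertex -/
def ChK (k : ℕ) (D : Dg V A) : ℕ → A → Prop
  | 0, x => D.Snk (D.hd x) ∧ ¬ D.One (D.hd x)
  | n + 1, x => ∃ g ∈ D.S, D.tl g ∈ M k D ∧ D.r (D.tl g) (D.hd x) ∧ ChK k D n g

/-- chains to a core minimal vertex -/
def ChA (k : ℕ) (D : Dg V A) : ℕ → A → Prop
  | 0, x => D.op.Snk (D.tl x) ∧ ¬ D.op.One (D.tl x)
  | n + 1, x => ∃ g ∈ D.S, D.hd g ∉ M k D ∧ D.r (D.tl x) (D.hd g) ∧ ChA k D n g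

theorem noK {k : ℕ} (hk : 2 ≤ k) : ∀ (n : ℕ) (D : Dg V A), Mx k D → ∀ e0, T2 D e0 →
    ¬ ChK k D n e0 := by
  classical
  intro n
  induction n using Nat.strong_induction_on with
  | _ n ih =>
    intro D hD e0 he0 hch
    obtain ⟨p1, p2, p3, p4⟩ := he0
    cases n with
    | zero => exact hch.2 p4
    | succ m =>
      obtain ⟨g, hgS, hg1, hg2, hg3⟩ := hch
      have hok := hD.nf.mn.ok
      have hne : g ≠ e0 := by
        rintro rfl
        exact (mem_M.1 hg1).1 p2
      have hts : TS k D (D.hd g) := Nf.hd_ts hgS (hD.nf.M_up _ hg1 _ (hok.comp g hgS))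
      have hex : Ex D e0 g := by
        refine ⟨p1, hgS, ?_, hg2⟩
        obtain ⟨b, hb⟩ := p4
        exact hok.tr _ _ _ (p2 b (hb _ (hok.comp e0 p1))) (hok.tr _ _ _ (hb _ hg2) (hok.comp g hgS))
      have hn' := hex.nf hD.nf
      have hM := hex.M_eq hok
      have hdn : ∀ x, x ≠ e0 → x ≠ g → (D.sw (Equiv.swap e0 g)).hd x = D.hd x := by
        intro x a b
        change D.hd (Equiv.swap e0 g x) = _
        rw [Equiv.swap_apply_of_ne_of_ne a b]
      have hd0 : (D.sw (Equiv.swap e0 g)).hd e0 = D.hd g := by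
        change D.hd (Equiv.swap e0 g e0) = _
        rw [Equiv.swap_apply_left]
      have hsub : E1 D ⊆ E1 (D.sw (Equiv.swap e0 g)) := by
        intro e he
        rw [mem_E1] at he
        obtain ⟨a1, a2, a3⟩ := he
        have n1 : e ≠ e0 := by
          rintro rfl
          exact a3.2 p4
        have n2 : e ≠ g := by
          rintro rfl
          exact (mem_M.1 hg1).1 a2.1
        rw [mem_E1, hdn e n1 n2]
        exact ⟨a1, a2, a3⟩
      by_cases hgc : D.One (D.hd g)
      · cases m with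
        | zero => exact hg3.2 hgc
        | succ m' =>
          have hD' : Mx k (D.sw (Equiv.swap e0 g)) :=
            ⟨hn', fun D'' h => (hD.max D'' h).trans (card_le_card hsub)⟩
          have step : ∀ j, j ≤ m' → ∀ x, ChK k D j x → ChK k (D.sw (Equiv.swap e0 g)) j x := by
            intro j
            induction j with
            | zero =>
              intro hj x hx
              have n1 : x ≠ e0 := by
                rintro rfl
                exact ih 0 (by omega) D hD x ⟨p1, p2, p3, p4⟩ hx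
              have n2 : x ≠ g := by
                rintro rfl
                exact ih 1 (by omega) D hD e0 ⟨p1, p2, p3, p4⟩ ⟨x, hgS, hg1, hg2, hx⟩
              change D.Snk ((D.sw (Equiv.swap e0 g)).hd x) ∧ ¬ D.One ((D.sw (Equiv.swap e0 g)).hd x)
              rw [hdn x n1 n2]
              exact hx
            | succ j ihj =>
              intro hj x hx
              have n1 : x ≠ e0 := by
                rintro rfl
                exact ih (j + 1) (by omega) D hD x ⟨p1, p2, p3, p4⟩ hx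
              have n2 : x ≠ g := by
                rintro rfl
                exact ih (j + 1 + 1) (by omega) D hD e0 ⟨p1, p2, p3, p4⟩ ⟨x, hgS, hg1, hg2, hx⟩
              obtain ⟨g3, b1, b2, b3, b4⟩ := hx
              refine ⟨g3, b1, by rw [hM]; exact b2, ?_, ihj (by omega) g3 b4⟩
              rw [hdn x n1 n2]
              exact b3
          refine ih (m' + 1) (by omega) _ hD' e0 ⟨p1, p2, ?_, ?_⟩ ?_
          · rw [hd0]; exact hts.1
          · rw [hd0]; exact hgc
          · obtain ⟨g2, b1, b2, b3, b4⟩ := hg3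
            refine ⟨g2, b1, by rw [hM]; exact b2, ?_, step m' le_rfl g2 b4⟩
            rw [hd0]
            exact b3
      · have h0 : e0 ∈ E1 (D.sw (Equiv.swap e0 g)) := by
          rw [mem_E1, hd0]
          exact ⟨p1, ⟨p2, fun h => hD.nf.mn.no_T4 (by omega) p1 p2 h p3 p4⟩, hts.1, hgc⟩
        have h1 : e0 ∉ E1 D := by
          rw [mem_E1]
          exact fun h => h.2.2.2 p4
        have h2 : (E1 D).card < (E1 (D.sw (Equiv.swap e0 g))).card :=
          card_lt_card ((ssubset_iff_of_subset hsub).2 ⟨e0, h0, h1⟩)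
        have h3 := hD.max _ hn'
        omega

theorem noA {k : ℕ} (hk : 2 ≤ k) : ∀ (n : ℕ) (D : Dg V A), Mx k D → ∀ e0, T3 D e0 →
    ¬ ChA k D n e0 := by
  classical
  intro n
  induction n using Nat.strong_induction_on with
  | _ n ih =>
    intro D hD e0 he0 hch
    obtain ⟨p1, p2, p3, p4, p5⟩ := he0
    cases n with
    | zero => exact hch.2 p3
    | succ m =>
      obtain ⟨g, hgS, hg1, hg2, hg3⟩ := hch
      have hok := hD.nf.mn.ok
      have hne : g ≠ e0 := by
        rintro rfl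
        exact hg1 (hD.nf.snk_M hk p4)
      have hsg : D.op.Snk (D.tl g) := (hD.nf.hd_open hk hgS hg1).2.1
      have hex : Ex D e0 g := by
        refine ⟨p1, hgS, hg2, ?_⟩
        obtain ⟨c, hc⟩ := p3
        exact hok.tr _ _ _ (hok.comp g hgS)
          (hok.tr _ _ _ (hc _ hg2) (p4 c (hc _ (hok.comp e0 p1))))
      have hn' := hex.nf hD.nf
      have hM := hex.M_eq hok
      have hdn : ∀ x, x ≠ e0 → x ≠ g → (D.sw (Equiv.swap e0 g)).hd x = D.hd x := by
        intro x a b
        change D.hd (Equiv.swap e0 g x) = _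
        rw [Equiv.swap_apply_of_ne_of_ne a b]
      have hdg : (D.sw (Equiv.swap e0 g)).hd g = D.hd e0 := by
        change D.hd (Equiv.swap e0 g g) = _
        rw [Equiv.swap_apply_right]
      have hsub : E1 D ⊆ E1 (D.sw (Equiv.swap e0 g)) := by
        intro e he
        rw [mem_E1] at he
        obtain ⟨a1, a2, a3⟩ := he
        have n1 : e ≠ e0 := by
          rintro rfl
          exact a2.2 p3
        have n2 : e ≠ g := by
          rintro rfl
          exact hg1 (hD.nf.snk_M hk a3.1)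
        rw [mem_E1, hdn e n1 n2]
        exact ⟨a1, a2, a3⟩
      by_cases hgc : D.op.One (D.tl g)
      · cases m with
        | zero => exact hg3.2 hgc
        | succ m' =>
          have hD' : Mx k (D.sw (Equiv.swap e0 g)) :=
            ⟨hn', fun D'' h => (hD.max D'' h).trans (card_le_card hsub)⟩
          have step : ∀ j, j ≤ m' → ∀ x, ChA k D j x →
              ChA k (D.sw (Equiv.swap e0 g)) j x ∧ x ≠ e0 ∧ x ≠ g := by
            intro j
            induction j with
            | zero =>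
              intro hj x hx
              have n1 : x ≠ e0 := by
                rintro rfl
                exact ih 0 (by omega) D hD x ⟨p1, p2, p3, p4, p5⟩ hx
              have n2 : x ≠ g := by
                rintro rfl
                exact ih 1 (by omega) D hD e0 ⟨p1, p2, p3, p4, p5⟩ ⟨x, hgS, hg1, hg2, hx⟩
              exact ⟨hx, n1, n2⟩
            | succ j ihj =>
              intro hj x hx
              have n1 : x ≠ e0 := by
                rintro rfl
                exact ih (j + 1) (by omega) D hD x ⟨p1, p2, p3, p4, p5⟩ hx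
              have n2 : x ≠ g := by
                rintro rfl
                exact ih (j + 1 + 1) (by omega) D hD e0 ⟨p1, p2, p3, p4, p5⟩ ⟨x, hgS, hg1, hg2, hx⟩
              obtain ⟨g3, b1, b2, b3, b4⟩ := hx
              obtain ⟨c1, c2, c3⟩ := ihj (by omega) g3 b4
              refine ⟨⟨g3, b1, ?_, ?_, c1⟩, n1, n2⟩
              · rw [hdn g3 c2 c3, hM]; exact b2
              · rw [hdn g3 c2 c3]; exact b3
          refine ih (m' + 1) (by omega) _ hD' g ⟨hgS, hsg, hgc, ?_, ?_⟩ ?_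
          · rw [hdg]; exact p4
          · rw [hdg]; exact p5
          · obtain ⟨g2, b1, b2, b3, b4⟩ := hg3
            obtain ⟨c1, c2, c3⟩ := step m' le_rfl g2 b4
            refine ⟨g2, b1, ?_, ?_, c1⟩
            · rw [hdn g2 c2 c3, hM]; exact b2
            · rw [hdn g2 c2 c3]; exact b3
      · have h0 : g ∈ E1 (D.sw (Equiv.swap e0 g)) := by
          rw [mem_E1, hdg]
          exact ⟨hgS, ⟨hsg, hgc⟩, p4, p5⟩
        have h1 : g ∉ E1 D := by
          rw [mem_E1]
          exact fun h => hg1 (hD.nf.snk_M hk h.2.2.1)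
        have h2 : (E1 D).card < (E1 (D.sw (Equiv.swap e0 g))).card :=
          card_lt_card ((ssubset_iff_of_subset hsub).2 ⟨g, h0, h1⟩)
        have h3 := hD.max _ hn'
        omega

/-- in a maximal normal form there is no arc from a pendant minimal vertex to a core maximal
vertex -/
theorem Mx.no_T3 {k : ℕ} (hk : 2 ≤ k) {D : Dg V A} (h : Mx k D) (e0 : A) : ¬ T3 D e0 := by
  classical
  intro hT
  have hk0 : 0 < k := by omega
  have hok := h.nf.mn.ok
  let R : A → A → Prop := fun g x => x ∈ D.S ∧ D.hd x ∉ M k D ∧ D.r (D.tl g) (D.hd x)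
  have hch : ∀ x, Relation.ReflTransGen R e0 x → ∀ j, ¬ ChA k D j x := by
    intro x hx
    induction hx with
    | refl => exact fun j => noA hk j D h e0 hT
    | tail _ hs ih => exact fun j hj => ih (j + 1) ⟨_, hs.1, hs.2.1, hs.2.2, hj⟩
  have hpr : ∀ x, Relation.ReflTransGen R e0 x → D.op.Snk (D.tl x) ∧ D.op.One (D.tl x) ∧
      ∀ y, D.r (D.tl x) y → D.r y (D.hd e0) := by
    intro x hx
    induction hx with
    | refl =>
      obtain ⟨p1, p2, p3, p4, p5⟩ := hT
      refine ⟨p2, p3, ?_⟩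
      obtain ⟨c, hc⟩ := p3
      exact fun y hy => hok.tr _ _ _ (hc y hy) (p4 c (hc _ (hok.comp e0 p1)))
    | @tail g x hg hs ih =>
      obtain ⟨q1, q2, q3⟩ := hs
      have h1 : D.op.Snk (D.tl x) := (h.nf.hd_open hk q1 q2).2.1
      have h2 : D.op.One (D.tl x) := by
        by_contra hn
        exact hch x (Relation.ReflTransGen.tail hg ⟨q1, q2, q3⟩) 0 ⟨h1, hn⟩
      refine ⟨h1, h2, ?_⟩
      obtain ⟨c, hc⟩ := h2
      have h3 : D.r (D.tl x) (D.hd e0) := hok.tr _ _ _ (hok.comp x q1) (ih.2.2 _ q3)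
      exact fun y hy => hok.tr _ _ _ (hc y hy) (hT.2.2.2.1 c (hc _ h3))
  let U : Finset V := univ.filter fun v => ∃ x, Relation.ReflTransGen R e0 x ∧ D.r (D.tl x) v
  have hmU : ∀ v, v ∈ U ↔ ∃ x, Relation.ReflTransGen R e0 x ∧ D.r (D.tl x) v := by
    intro v
    simp [U]
  have hcut : Cut D.r U := by
    refine ⟨⟨D.tl e0, (hmU _).2 ⟨e0, Relation.ReflTransGen.refl, hok.refl _⟩⟩, ?_, ?_⟩
    · intro h1
      apply h.nf.mn.no_max hk0
      refine ⟨D.hd e0, fun y => ?_⟩
      obtain ⟨x, hx, hy⟩ := (hmU y).1 (h1 ▸ mem_univ y)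
      exact (hpr x hx).2.2 y hy
    · intro u hu v huv
      rw [hmU] at hu ⊢
      obtain ⟨x, hx, hy⟩ := hu
      exact ⟨x, hx, hok.tr _ _ _ hy huv⟩
  have h1 := hok.val U hcut
  have h2 := (h.nf.snk_ts hk hT.2.2.2.1).2
  have h3 : e0 ∈ D.E (D.up (D.hd e0)) := by
    rw [mem_E, mem_up, mem_up]
    exact ⟨hT.1, h.nf.mn.no_loop hT.1, hok.refl _⟩
  have hsub : D.E U ⊆ (D.E (D.up (D.hd e0))).erase e0 := by
    intro g hg
    obtain ⟨g1, g2, g3⟩ := mem_E.1 hg
    rw [hmU] at g2 g3
    obtain ⟨x, hx, hgx⟩ := g3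
    have g4 : D.hd g ∈ M k D := by
      by_contra hn
      exact g2 ⟨g, Relation.ReflTransGen.tail hx ⟨g1, hn, hgx⟩, hok.refl _⟩
    have g5 : TS k D (D.hd g) := Nf.hd_ts g1 g4
    have g6 : D.r (D.hd g) (D.hd e0) := (hpr x hx).2.2 _ hgx
    rw [mem_erase, mem_E, mem_up, mem_up]
    refine ⟨?_, g1, fun g7 => h.nf.mn.no_loop g1 (hok.tr _ _ _ g6 g7), g5.1 _ g6⟩
    rintro rfl
    exact g2 ⟨g, Relation.ReflTransGen.refl, hok.refl _⟩
  have h4 := card_le_card hsub
  rw [card_erase_of_mem h3, h2] at h4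
  omega

end Dg

end Wood3
end

section
/-!
# Any number of colours for the class K5
-/
open Finset Wood2

namespace Wood3

set_option linter.unusedSectionVars false

namespace Dg

variable {V A : Type} [Fintype V] [DecidableEq V] [DecidableEq A] [Fintype A]

theorem Mn.core_snk {k : ℕ} (hk : 0 < k) {D : Dg V A} (h : Mn k D) (v : V) :
    ∃ t, D.Snk t ∧ ¬ D.One t := by
  by_contra hn
  push Not at hn
  obtain ⟨b, hb, _⟩ := exists_src h.ok.refl h.ok.tr v
  obtain ⟨g, hg⟩ := card_pos.1 (lt_of_lt_of_le hk (h.ok.val _ (h.cut_up hk b)))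
  obtain ⟨g1, g2, g3⟩ := mem_E.1 hg
  rw [mem_up] at g2 g3
  obtain ⟨t, ht, hgt⟩ := exists_snk h.ok.refl h.ok.tr (D.hd g)
  obtain ⟨b', hb'⟩ := hn t ht
  have a1 : D.r b' b := hb' b (h.ok.tr _ _ _ g3 hgt)
  have a2 : D.r b' (D.tl g) := hb' _ (h.ok.tr _ _ _ (h.ok.comp g g1) hgt)
  exact g2 (h.ok.tr _ _ _ (hb b' a1) a2)

theorem Ok.core_rel {k : ℕ} {D : Dg V A} (h : Ok k D) {s x : V} (hs1 : D.op.Snk s)
    (hs2 : ¬ D.op.One s) (hx : D.Snk x) (hx1 : ¬ D.One x) : D.r s x := by
  have := h.core (up_up h.tr s) (mem_up.2 (h.refl s)) hs1 hs2 hx hx1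
  exact mem_up.1 this

/-- the cuts on the side of the minimal vertices -/
theorem Mx.left_cut {k : ℕ} (hk : 2 ≤ k) {D : Dg V A} (h : Mx k D) {SL : Finset A}
    (hSL : ∀ e, e ∈ D.S → D.tl e ∉ M k D → ¬ T2 D e → e ∈ SL) {Y : Finset V}
    (hY : Fam D.op.r (M k D) Y) : k ≤ (ent D.hd D.tl SL Y).card := by
  classical
  have hk0 : 0 < k := by omega
  have hok := h.nf.mn.ok
  let R : A → A → Prop := fun g x => x ∈ D.S ∧ D.tl x ∈ M k D ∧ D.r (D.tl x) (D.hd g)
  let Kr : A → Prop := fun x => ∃ e0, T2 D e0 ∧ Relation.ReflTransGen R e0 x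
  have hch : ∀ e0, T2 D e0 → ∀ x, Relation.ReflTransGen R e0 x → ∀ j, ¬ ChK k D j x := by
    intro e0 he0 x hx
    induction hx with
    | refl => exact fun j => noK hk j D h e0 he0
    | tail _ hs ih => exact fun j hj => ih (j + 1) ⟨_, hs.1, hs.2.1, hs.2.2, hj⟩
  have hpr : ∀ x, Kr x → x ∈ D.S ∧ D.Snk (D.hd x) ∧ D.One (D.hd x) := by
    rintro x ⟨e0, he0, hx⟩
    have hx' := hx
    cases hx with
    | refl => exact ⟨he0.1, he0.2.2.1, he0.2.2.2⟩
    | @tail g x hg hs =>
      obtain ⟨q1, q2, q3⟩ := hs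
      have h1 : TS k D (D.hd x) := Nf.hd_ts q1 (h.nf.M_up _ q2 _ (hok.comp x q1))
      refine ⟨q1, h1.1, ?_⟩
      by_contra hn
      exact hch e0 he0 x hx' 0 ⟨h1.1, hn⟩
  have hstep : ∀ g x, Kr g → x ∈ D.S → D.tl x ∈ M k D → D.r (D.tl x) (D.hd g) → Kr x := by
    rintro g x ⟨e0, he0, hg⟩ h1 h2 h3
    exact ⟨e0, he0, Relation.ReflTransGen.tail hg ⟨h1, h2, h3⟩⟩
  have hbase : ∀ x, T2 D x → Kr x := fun x hx => ⟨x, hx, Relation.ReflTransGen.refl⟩
  let Z : Finset V := univ.filter fun v => ∃ x, Kr x ∧ D.r v (D.hd x) ∧ ∃ y ∈ Y, D.r y (D.hd x)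
  have hmZ : ∀ v, v ∈ Z ↔ ∃ x, Kr x ∧ D.r v (D.hd x) ∧ ∃ y ∈ Y, D.r y (D.hd x) := by
    intro v
    simp [Z]
  have hYM : ∀ y ∈ Y, y ∉ M k D := fun y hy => Finset.disjoint_left.1 hY.2.2 hy
  have hcut : Cut D.r (Y ∪ Z)ᶜ := by
    refine ⟨?_, ?_, ?_⟩
    · obtain ⟨y, _⟩ := hY.1
      obtain ⟨t, ht, ht1⟩ := h.nf.mn.core_snk hk0 y
      refine ⟨t, ?_⟩
      rw [mem_compl, mem_union]
      rintro (h1 | h1)
      · exact hYM t h1 (h.nf.snk_M hk ht)
      · rw [hmZ] at h1
        obtain ⟨x, hx, hx1, _⟩ := h1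
        obtain ⟨_, _, b, hb⟩ := hpr x hx
        exact ht1 ⟨b, fun z hz => hb z (hok.tr _ _ _ hz hx1)⟩
    · intro h1
      obtain ⟨y, hy⟩ := hY.1
      have : y ∈ (Y ∪ Z)ᶜ := h1 ▸ mem_univ y
      rw [mem_compl] at this
      exact this (mem_union_left _ hy)
    · intro u hu v huv
      rw [mem_compl, mem_union] at hu ⊢
      rintro (h1 | h1)
      · exact hu (Or.inl (hY.2.1 v h1 u huv))
      · rw [hmZ] at h1
        obtain ⟨x, hx, hx1, hx2⟩ := h1
        exact hu (Or.inr ((hmZ u).2 ⟨x, hx, hok.tr _ _ _ huv hx1, hx2⟩))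
  refine (hok.val _ hcut).trans (card_le_card fun e he => ?_)
  obtain ⟨e1, e2, e3⟩ := mem_E.1 he
  rw [mem_compl, not_not, mem_union] at e2
  rw [mem_compl, mem_union, not_or] at e3
  have key : D.tl e ∈ Y := by
    rcases e2 with e2 | e2
    · exact e2
    rw [hmZ] at e2
    obtain ⟨x, hx, hx1, y, hy, hx2⟩ := e2
    obtain ⟨_, _, b, hb⟩ := hpr x hx
    have hby : D.r b y := hb y hx2
    have hbY : b ∈ Y := hY.2.1 y hy b hby
    have hbe : D.r b (D.tl e) := hb _ hx1
    by_cases h1 : D.tl e ∈ M k D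
    · exfalso
      have h2 : Kr e := hstep x e hx e1 h1 hx1
      exact e3.2 ((hmZ _).2 ⟨e, h2, hok.refl _, b, hbY, hok.tr _ _ _ hbe (hok.comp e e1)⟩)
    · have h2 := (h.nf.tl_or hk0 e1).resolve_left h1
      exact hY.2.1 b hbY _ (h2 b hbe)
  rw [mem_ent]
  refine ⟨hSL e e1 (hYM _ key) fun h1 => ?_, e3.1, key⟩
  exact e3.2 ((hmZ _).2 ⟨e, hbase e h1, hok.refl _, _, key, hok.comp e e1⟩)

theorem card_filter_sub {k : ℕ} (X : Finset A) (f : A → Fin k) (i : Fin k) :
    (univ.filter fun x : {x // x ∈ X} => f x = i).card = cnt X f i := by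
  unfold cnt
  refine card_bij (fun x _ => (x : A)) ?_ ?_ ?_
  · intro x hx
    rw [mem_filter] at hx ⊢
    exact ⟨x.2, hx.2⟩
  · intro a _ b _ hab
    exact Subtype.ext hab
  · intro b hb
    rw [mem_filter] at hb
    exact ⟨⟨b, hb.1⟩, mem_filter.2 ⟨mem_univ _, hb.2⟩, rfl⟩

theorem Mx.false {k : ℕ} (hk : 2 ≤ k) {D : Dg V A} (h : Mx k D) : False := by
  classical
  have hk0 : 0 < k := by omega
  have hok := h.nf.mn.ok
  have hMu := h.nf.M_up
  let SL : Finset A := D.S.filter fun e => D.tl e ∉ M k D ∧ ¬ T2 D e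
  let SM : Finset A := D.S.filter fun e => D.hd e ∈ M k D
  have hXL : ∀ e ∈ E1 D, e ∈ SL ∧ D.hd e ∈ M k D := by
    intro e he
    obtain ⟨h1, ⟨h2, h3⟩, h4, h5⟩ := mem_E1.1 he
    exact ⟨mem_filter.2 ⟨h1, fun h6 => (mem_M.1 h6).1 h2, fun h6 => h5 h6.2.2.2⟩, h.nf.snk_M hk h4⟩
  have hXM : ∀ e ∈ E1 D, e ∈ SM ∧ D.tl e ∈ (M k D)ᶜ := by
    intro e he
    obtain ⟨h1, ⟨h2, h3⟩, h4, h5⟩ := mem_E1.1 he
    exact ⟨mem_filter.2 ⟨h1, h.nf.snk_M hk h4⟩, mem_compl.2 fun h6 => (mem_M.1 h6).1 h2⟩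
  have hLX : ∀ e ∈ SL, D.hd e ∈ M k D → e ∈ E1 D := by
    intro e he h1
    obtain ⟨h2, h3, h4⟩ := mem_filter.1 he
    have h5 := (h.nf.tl_or hk0 h2).resolve_left h3
    have h6 := Nf.hd_ts h2 h1
    have h7 : ¬ D.One (D.hd e) := fun h8 => h4 ⟨h2, h5, h6.1, h8⟩
    exact mem_E1.2 ⟨h2, ⟨h5, fun h8 => h.no_T3 hk e ⟨h2, h5, h8, h6.1, h7⟩⟩, h6.1, h7⟩
  obtain ⟨fL, hfL, hbL⟩ := exists_bal (r := D.op.r) (Rt := M k D) (tl := D.hd) (hd := D.tl)
    (S := SL) (X := E1 D) hok.refl h.nf.mn.op.ok.tr (fun u hu v hvu => hMu u hu v hvu)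
    (fun e he => hok.comp e (mem_filter.1 he).1) hk0
    (fun Y hY => h.left_cut hk (fun e h1 h2 h3 => mem_filter.2 ⟨h1, h2, h3⟩) hY) hXL
  obtain ⟨fM, hfM, hbM⟩ := exists_bal (r := D.r) (Rt := (M k D)ᶜ) (tl := D.tl) (hd := D.hd)
    (S := SM) (X := E1 D) hok.refl hok.tr (by
      intro u hu v hvu
      rw [mem_compl] at hu ⊢
      exact fun hv => hu (hMu v hv u hvu))
    (fun e he => hok.comp e (mem_filter.1 he).1) hk0 (by
      intro U hU
      obtain ⟨h1, h2⟩ := h.nf.fam1 hU
      refine (hok.val U h1).trans (card_le_card fun e he => ?_)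
      rw [mem_E] at he
      rw [mem_ent, mem_filter]
      exact ⟨⟨he.1, h2 he.2.2⟩, he.2⟩) hXM
  obtain ⟨σ, hσ⟩ := exists_perm (cnt (E1 D) fM) (cnt (E1 D) fL)
    (bal_eq _ _ hbM hbL (by rw [sum_cnt, sum_cnt]))
  let gL : A → Fin k := fun e => σ (fL e)
  have hg : ∀ i, cnt (E1 D) fM i = cnt (E1 D) gL i := by
    intro i
    have h1 : cnt (E1 D) gL i = cnt (E1 D) fL (σ.symm i) := by
      unfold cnt
      congr 1
      ext e
      rw [mem_filter, mem_filter]
      constructor
      · rintro ⟨h1, h2⟩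
        exact ⟨h1, by rw [← h2]; exact (σ.symm_apply_apply _).symm⟩
      · rintro ⟨h1, h2⟩
        refine ⟨h1, ?_⟩
        change σ (fL e) = i
        rw [h2, σ.apply_symm_apply]
    rw [h1, ← hσ, σ.apply_symm_apply]
  obtain ⟨τ, hτ⟩ := exists_perm (fun x : {x // x ∈ E1 D} => fM x) (fun x => gL x) (by
    intro i
    rw [card_filter_sub, card_filter_sub]
    exact hg i)
  have hτ1 : ∀ e (he : e ∈ E1 D), Equiv.Perm.ofSubtype τ e = τ ⟨e, he⟩ := fun e he =>
    Equiv.Perm.ofSubtype_apply_of_mem τ he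
  have hτ2 : ∀ e, e ∉ E1 D → Equiv.Perm.ofSubtype τ e = e := fun e he =>
    Equiv.Perm.ofSubtype_apply_of_not_mem τ he
  apply h.nf.mn.bad
  refine col_of_perm (E1 D) τ D hok (fun e he => (mem_E1.1 he).1) ?_ ?_
  · intro e he e' he'
    obtain ⟨h1, ⟨h2, h3⟩, h4, h5⟩ := mem_E1.1 he
    obtain ⟨h1', ⟨h2', h3'⟩, h4', h5'⟩ := mem_E1.1 he'
    exact hok.core_rel h2 h3 h4' h5'
  refine ⟨fun e => if e ∈ SL then gL e else fM e, fun i U hU => ?_⟩
  have hU' : Cut D.r U := hU
  by_cases hA : ∀ s ∈ U, D.op.Snk s → D.op.One s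
  · obtain ⟨x, hx⟩ := hU'.1
    obtain ⟨t, ht, hxt⟩ := exists_snk hok.refl hok.tr x
    obtain ⟨e, he, h1, h2, h3⟩ := hfM i (U ∩ M k D) (Nf.fam1'
      ⟨t, mem_inter.2 ⟨hU'.2.2 _ hx _ hxt, h.nf.snk_M hk ht⟩⟩ (hU'.2.2.inter hMu)
      inter_subset_right)
    obtain ⟨he1, he2⟩ := mem_filter.1 he
    rw [mem_inter] at h2 h3
    by_cases heX : e ∈ E1 D
    · set e1 := τ.symm ⟨e, heX⟩ with he1d
      have hm := mem_E1.1 e1.2
      have hte : τ e1 = ⟨e, heX⟩ := τ.apply_symm_apply _
      refine ⟨e1, hm.1, ?_, fun h4 => ?_, ?_⟩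
      · change (if (e1 : A) ∈ SL then gL e1 else fM e1) = i
        rw [if_pos (hXL _ e1.2).1]
        have := hτ e1
        rw [hte] at this
        rw [← this, h1]
      · exact hm.2.1.2 (hA _ h4 hm.2.1.1)
      · change D.hd (Equiv.Perm.ofSubtype τ e1) ∈ U
        rw [hτ1 _ e1.2]
        have : (⟨(e1 : A), e1.2⟩ : {x // x ∈ E1 D}) = e1 := rfl
        rw [this, hte]
        exact h3.1
    · refine ⟨e, he1, ?_, fun h4 => ?_, ?_⟩
      · change (if e ∈ SL then gL e else fM e) = i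
        rw [if_neg (fun h5 => heX (hLX e h5 he2)), h1]
      · have h5 : D.tl e ∉ M k D := fun h6 => h2 ⟨h4, h6⟩
        have h6 := (h.nf.tl_or hk0 he1).resolve_left h5
        have h7 := hA _ h4 h6
        have h8 := Nf.hd_ts he1 he2
        exact h.no_T3 hk e ⟨he1, h6, h7, h8.1, h.nf.mn.no_T4 hk0 he1 h6 h7 h8.1⟩
      · change D.hd (Equiv.Perm.ofSubtype τ e) ∈ U
        rw [hτ2 e heX]
        exact h3.1
  · push Not at hA
    obtain ⟨s, hs, hs1, hs2⟩ := hA
    obtain ⟨e, he, h1, h2, h3⟩ := hfL (σ.symm i) _ (h.nf.fam2' hU')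
    rw [mem_compl, mem_union] at h2 h3
    rw [not_not] at h2
    rw [not_or] at h3
    obtain ⟨he1, he2, he3⟩ := mem_filter.1 he
    refine ⟨e, he1, ?_, h3.1, ?_⟩
    · change (if e ∈ SL then gL e else fM e) = i
      rw [if_pos he]
      change σ (fL e) = i
      rw [h1, σ.apply_symm_apply]
    · change D.hd (Equiv.Perm.ofSubtype τ e) ∈ U
      by_cases heX : e ∈ E1 D
      · rw [hτ1 e heX]
        have hm := mem_E1.1 (τ ⟨e, heX⟩).2
        exact hok.core hU'.2.2 hs hs1 hs2 hm.2.2.1 hm.2.2.2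
      · rw [hτ2 e heX]
        exact h2.resolve_right fun h4 => heX (hLX e he h4)

/-- **the theorem for the class K5** -/
theorem pack {k : ℕ} (hk : 0 < k) {D : Dg V A} (h : Ok k D) : Col k D := by
  by_cases hk1 : k = 1
  · subst hk1
    refine ⟨fun _ => 0, fun i U hU => ?_⟩
    obtain ⟨e, he⟩ := card_pos.1 (lt_of_lt_of_le hk (h.val U hU))
    obtain ⟨h1, h2⟩ := mem_E.1 he
    exact ⟨e, h1, (Subsingleton.elim _ _), h2⟩
  · have hk2 : 2 ≤ k := by omega
    by_contra hb
    obtain ⟨W, i1, i2, D0, h0⟩ := exists_Mn V D h hb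
    obtain ⟨D1, h1⟩ := exists_Nf' hk2 h0
    obtain ⟨D2, h2⟩ := exists_Mx _ D1 rfl h1
    exact h2.false hk2

end Dg

end Wood3
end

section
/-!
# Digraphs
-/
open Finset Wood2

namespace Wood3

set_option linter.unusedSectionVars false

variable {V A : Type} [Fintype V] [Fintype A]

/-- reachability -/
def Re (tl hd : A → V) (x y : V) : Prop :=
  Relation.ReflTransGen (fun x y => ∃ a, tl a = x ∧ hd a = y) x y

/-- weak connectivity -/
def Cn (tl hd : A → V) (x y : V) : Prop :=
  Relation.ReflTransGen (fun x y => ∃ a, tl a = x ∧ hd a = y ∨ hd a = x ∧ tl a = y) x y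

theorem Re.cn {tl hd : A → V} {x y : V} (h : Re tl hd x y) : Cn tl hd x y := by
  induction h with
  | refl => exact Relation.ReflTransGen.refl
  | tail _ hs ih =>
    obtain ⟨a, h1, h2⟩ := hs
    exact Relation.ReflTransGen.tail ih ⟨a, Or.inl ⟨h1, h2⟩⟩

theorem Cn.symm {tl hd : A → V} {x y : V} (h : Cn tl hd x y) : Cn tl hd y x := by
  induction h with
  | refl => exact Relation.ReflTransGen.refl
  | tail _ hs ih =>
    obtain ⟨a, h1⟩ := hs
    refine Relation.ReflTransGen.head ⟨a, ?_⟩ ih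
    rcases h1 with ⟨h1, h2⟩ | ⟨h1, h2⟩
    · exact Or.inr ⟨h2, h1⟩
    · exact Or.inl ⟨h2, h1⟩

theorem Cn.trans {tl hd : A → V} {x y z : V} (h : Cn tl hd x y) (h' : Cn tl hd y z) :
    Cn tl hd x z := Relation.ReflTransGen.trans h h'

/-- an arc between a set and its complement -/
theorem exists_cross {tl hd : A → V} {X : Set V} {u v : V} (h : Cn tl hd u v) (hu : u ∈ X)
    (hv : v ∉ X) : (∃ a, tl a ∈ X ∧ hd a ∉ X) ∨ ∃ a, tl a ∉ X ∧ hd a ∈ X := by
  induction h with
  | refl => exact absurd hu hv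
  | @tail y z _ hs ih =>
    by_cases hy : y ∈ X
    · obtain ⟨a, ⟨h1, h2⟩ | ⟨h1, h2⟩⟩ := hs
      · exact Or.inl ⟨a, h1 ▸ hy, h2 ▸ hv⟩
      · exact Or.inr ⟨a, h2 ▸ hv, h1 ▸ hy⟩
    · exact ih hy

theorem re_src (tl hd : A → V) (x : V) :
    ∃ s, (∀ y, Re tl hd y s → Re tl hd s y) ∧ Re tl hd s x := by
  classical
  let D : Dg V A := ⟨Re tl hd, tl, hd, ∅⟩
  exact Dg.exists_src (D := D) (fun v => Relation.ReflTransGen.refl)
    (fun u v w h1 h2 => Relation.ReflTransGen.trans h1 h2) x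

theorem re_snk (tl hd : A → V) (x : V) :
    ∃ s, (∀ y, Re tl hd s y → Re tl hd y s) ∧ Re tl hd x s := by
  classical
  let D : Dg V A := ⟨Re tl hd, tl, hd, ∅⟩
  exact Dg.exists_snk (D := D) (fun v => Relation.ReflTransGen.refl)
    (fun u v w h1 h2 => Relation.ReflTransGen.trans h1 h2) x

/-- the condition on the digraph -/
theorem pack_digraph (tl hd : A → V) (S : Set A) (k : ℕ)
    (hC : ∀ s t : V, (∀ x, Re tl hd x s → Re tl hd s x) → (∀ x, Re tl hd t x → Re tl hd x t) →
      Cn tl hd s t →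
      (∃ t1 t2, Re tl hd s t1 ∧ Re tl hd s t2 ∧ ¬ ∃ x, Re tl hd t1 x ∧ Re tl hd t2 x) →
      (∃ s1 s2, Re tl hd s1 t ∧ Re tl hd s2 t ∧ ¬ ∃ x, Re tl hd x s1 ∧ Re tl hd x s2) →
      Re tl hd s t)
    (hcut : ∀ U : Set V, (∀ a, tl a ∈ U → hd a ∈ U) → (∃ a, tl a ∉ U ∧ hd a ∈ U) →
      k ≤ {a ∈ S | tl a ∉ U ∧ hd a ∈ U}.ncard) :
    ∃ J : Fin k → Set A, (∀ i, J i ⊆ S) ∧ (∀ i j, i ≠ j → Disjoint (J i) (J j)) ∧
      ∀ i, ∀ U : Set V, (∀ a, tl a ∈ U → hd a ∈ U) → (∃ a, tl a ∉ U ∧ hd a ∈ U) →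
        ∃ a ∈ J i, tl a ∉ U ∧ hd a ∈ U := by
  classical
  rcases Nat.eq_zero_or_pos k with rfl | hk
  · exact ⟨fun _ => ∅, fun i => i.elim0, fun i => i.elim0, fun i => i.elim0⟩
  have hrefl : ∀ v, Re tl hd v v := fun v => Relation.ReflTransGen.refl
  have htr : ∀ u v w, Re tl hd u v → Re tl hd v w → Re tl hd u w :=
    fun u v w h h' => Relation.ReflTransGen.trans h h'
  have harc : ∀ a, Re tl hd (tl a) (hd a) := fun a => Relation.ReflTransGen.single ⟨a, rfl, rfl⟩
  let π : V → V → V := fun c v => if Cn tl hd c v then v else c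
  have hπc : ∀ c v, Cn tl hd c (π c v) := by
    intro c v
    by_cases h : Cn tl hd c v
    · simpa only [π, if_pos h] using h
    · simp only [π, if_neg h]
      exact Relation.ReflTransGen.refl
  have hπ : ∀ c v, Cn tl hd c v → π c v = v := fun c v h => if_pos h
  let D : V → Dg V A := fun c => ⟨fun x y => Re tl hd (π c x) (π c y), tl, hd,
    univ.filter fun a => a ∈ S ∧ Cn tl hd c (tl a)⟩
  have hok : ∀ c, Dg.Ok k (D c) := by
    intro c
    have hup : ∀ x y, Cn tl hd c x → Re tl hd x y → Cn tl hd c y := fun x y h1 h2 => h1.trans h2.cn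
    have hdn : ∀ x y, Cn tl hd c x → Re tl hd y x → Cn tl hd c y :=
      fun x y h1 h2 => h1.trans h2.cn.symm
    refine ⟨fun v => hrefl _, fun u v w => htr _ _ _, ?_, ?_, ?_⟩
    · intro e he
      obtain ⟨-, -, h1⟩ := mem_filter.1 he
      change Re tl hd (π c (tl e)) (π c (hd e))
      rw [hπ c _ h1, hπ c _ (hup _ _ h1 (harc e))]
      exact harc e
    · intro v w
      have hv := hπc c v
      have hw := hπc c w
      by_cases h1 : ∃ b, ∀ y, Re tl hd (π c v) y → Re tl hd y b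
      · left
        obtain ⟨b, hb⟩ := h1
        refine ⟨b, fun y hy => ?_⟩
        change Re tl hd (π c y) (π c b)
        rw [hπ c b (hup _ _ hv (hb _ (hrefl _)))]
        exact hb _ hy
      by_cases h2 : ∃ b, ∀ y, Re tl hd y (π c w) → Re tl hd b y
      · right; left
        obtain ⟨b, hb⟩ := h2
        refine ⟨b, fun y hy => ?_⟩
        change Re tl hd (π c b) (π c y)
        rw [hπ c b (hdn _ _ hw (hb _ (hrefl _)))]
        exact hb _ hy
      right; right
      obtain ⟨s, hs, hsv⟩ := re_src tl hd (π c v)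
      obtain ⟨t, ht, hwt⟩ := re_snk tl hd (π c w)
      have cs : Cn tl hd c s := hdn _ _ hv hsv
      have ct : Cn tl hd c t := hup _ _ hw hwt
      have hst : Re tl hd s t := by
        refine hC s t hs ht (cs.symm.trans ct) ?_ ?_
        · obtain ⟨t1, ht1, hst1⟩ := re_snk tl hd (π c v)
          have h3 : ∃ y, Re tl hd (π c v) y ∧ ¬ Re tl hd y t1 := by
            by_contra hn
            push Not at hn
            exact h1 ⟨t1, hn⟩
          obtain ⟨y, hy, hy1⟩ := h3
          refine ⟨t1, y, htr _ _ _ hsv hst1, htr _ _ _ hsv hy, ?_⟩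
          rintro ⟨x, hx, hx'⟩
          exact hy1 (htr _ _ _ hx' (ht1 x hx))
        · obtain ⟨s1, hs1, hsw1⟩ := re_src tl hd (π c w)
          have h3 : ∃ y, Re tl hd y (π c w) ∧ ¬ Re tl hd s1 y := by
            by_contra hn
            push Not at hn
            exact h2 ⟨s1, hn⟩
          obtain ⟨y, hy, hy1⟩ := h3
          refine ⟨s1, y, htr _ _ _ hsw1 hwt, htr _ _ _ hy hwt, ?_⟩
          rintro ⟨x, hx, hx'⟩
          exact hy1 (htr _ _ _ (hs1 x hx) hx')
      refine ⟨s, t, ?_, ?_, ?_⟩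
      · change Re tl hd (π c s) (π c v)
        rw [hπ c s cs]; exact hsv
      · change Re tl hd (π c w) (π c t)
        rw [hπ c t ct]; exact hwt
      · change Re tl hd (π c s) (π c t)
        rw [hπ c s cs, hπ c t ct]; exact hst
    · intro U hU
      have hmem : ∀ v, v ∈ U ↔ π c v ∈ U := by
        intro v
        have h1 : π c (π c v) = π c v := hπ c _ (hπc c v)
        constructor
        · intro hv
          refine hU.2.2 v hv (π c v) ?_
          change Re tl hd (π c v) (π c (π c v))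
          rw [h1]; exact hrefl _
        · intro hv
          refine hU.2.2 _ hv v ?_
          change Re tl hd (π c (π c v)) (π c v)
          rw [h1]; exact hrefl _
      let X : Set V := {v | Cn tl hd c v ∧ v ∈ U}
      have hX : ∀ a, tl a ∈ X → hd a ∈ X := by
        rintro a ⟨h1, h2⟩
        have h3 := hup _ _ h1 (harc a)
        refine ⟨h3, hU.2.2 _ h2 _ ?_⟩
        change Re tl hd (π c (tl a)) (π c (hd a))
        rw [hπ c _ h1, hπ c _ h3]
        exact harc a
      have hne : ∃ a, tl a ∉ X ∧ hd a ∈ X := by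
        obtain ⟨u, hu⟩ := hU.1
        obtain ⟨v, hv⟩ : ∃ v, v ∉ U := by
          by_contra hn
          push Not at hn
          exact hU.2.1 (eq_univ_iff_forall.2 hn)
        rw [hmem] at hu hv
        rcases exists_cross (X := X) ((hπc c u).symm.trans (hπc c v)) ⟨hπc c u, hu⟩
          (fun h => hv h.2) with ⟨a, h1, h2⟩ | h1
        · exact absurd (hX a h1) h2
        · exact h1
      refine (hcut X hX hne).trans ?_
      have hsub : {a ∈ S | tl a ∉ X ∧ hd a ∈ X} ⊆ ((D c).E U : Set A) := by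
        rintro a ⟨h1, h2, h3, h4⟩
        have h5 : Cn tl hd c (tl a) := hdn _ _ h3 (harc a)
        rw [mem_coe, Dg.mem_E]
        exact ⟨mem_filter.2 ⟨mem_univ _, h1, h5⟩, fun h6 => h2 ⟨h5, h6⟩, h4⟩
      have := Set.ncard_le_ncard hsub (Finset.finite_toSet _)
      rwa [Set.ncard_coe_finset] at this
  have hF : ∀ c, Dg.Col k (D c) := fun c => Dg.pack hk (hok c)
  choose F hF using hF
  let s : Setoid V := ⟨Cn tl hd, fun _ => Relation.ReflTransGen.refl, fun h => h.symm,
    fun h h' => h.trans h'⟩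
  let rep : V → V := fun v => (Quotient.mk s v).out
  have hrep : ∀ v, Cn tl hd (rep v) v := fun v => Quotient.exact (Quotient.out_eq (Quotient.mk s v))
  have hrep2 : ∀ u v, Cn tl hd u v → rep u = rep v := by
    intro u v h
    have : Quotient.mk s u = Quotient.mk s v := Quotient.sound h
    simp only [rep, this]
  let f : A → Fin k := fun a => F (rep (tl a)) a
  refine ⟨fun i => {a | a ∈ S ∧ f a = i}, fun i a ha => ha.1, ?_, ?_⟩
  · intro i j hij
    rw [Set.disjoint_left]
    rintro a ⟨_, h1⟩ ⟨_, h3⟩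
    exact hij (h1.symm.trans h3)
  · rintro i U hU ⟨a0, h1, h2⟩
    have hcr : ∀ u ∈ U, ∀ v, Re tl hd u v → v ∈ U := fun u hu v h => closed_reach hU h hu
    set c := rep (tl a0) with hc
    have hc0 : Cn tl hd c (tl a0) := hrep _
    have hc1 : Cn tl hd c (hd a0) := hc0.trans (harc a0).cn
    obtain ⟨e, he, h3, h4, h5⟩ := hF c i (univ.filter fun v => π c v ∈ U) ⟨⟨hd a0, by
        rw [mem_filter, hπ c _ hc1]
        exact ⟨mem_univ _, h2⟩⟩, fun h6 => by
        have h7 : tl a0 ∈ univ.filter fun v => π c v ∈ U := by rw [h6]; exact mem_univ _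
        rw [mem_filter, hπ c _ hc0] at h7
        exact h1 h7.2, by
        intro u hu v huv
        rw [mem_filter] at hu ⊢
        exact ⟨mem_univ _, hcr _ hu.2 _ huv⟩⟩
    obtain ⟨-, h6, h7⟩ := mem_filter.1 he
    change tl e ∉ _ at h4
    change hd e ∈ _ at h5
    rw [mem_filter, hπ c _ h7] at h4
    rw [mem_filter, hπ c _ (h7.trans (harc e).cn)] at h5
    refine ⟨e, ⟨h6, ?_⟩, fun h8 => h4 ⟨mem_univ _, h8⟩, h5.2⟩
    change F (rep (tl e)) e = i
    have h8 : rep (tl e) = c := by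
      rw [hc]
      exact hrep2 _ _ (h7.symm.trans hc0)
    rw [h8]
    exact h3

end Wood3
end
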