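import Pool.Agent.Lib.MP_492a9e_co.Two.Main

/-!
# MP_492a9e_co (Woodall), the class K5: base (helper88)

`Dg`: a relation `r` (reachability), arcs with tail and head, a finite set `S` of arcs.
`K5`: every `v`, `w` with `v` below at least two maximal classes and `w` above at least two minimal classes are
joined through a common pair.  The notions are closed under reversal `op`.
-/

open Finset Wood2

namespace Wood3

set_option linter.unusedSectionVars false

/-- reachability, arcs, a set of arcs -/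
structure Dg (V A : Type) where
  r : V → V → Prop
  tl : A → V
  hd : A → V
  S : Finset A

namespace Dg

variable {V A : Type}

/-- reversal -/
def op (D : Dg V A) : Dg V A := ⟨fun x y => D.r y x, D.hd, D.tl, D.S⟩

/-- `w` lies above one minimal class only -/
def One (D : Dg V A) (w : V) : Prop := ∃ b, ∀ y, D.r y w → D.r b y

/-- maximal -/
def Snk (D : Dg V A) (v : V) : Prop := ∀ y, D.r v y → D.r y v

/-- the class of relations -/
def K5 (D : Dg V A) : Prop :=
  ∀ v w, D.op.One v ∨ D.One w ∨ ∃ a t, D.r a v ∧ D.r w t ∧ D.r a t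

variable [Fintype V] [DecidableEq V] [DecidableEq A]

/-- entering arcs -/
def E (D : Dg V A) (U : Finset V) : Finset A := ent D.tl D.hd D.S U

open Classical in
/-- the vertices above `x` -/
noncomputable def up (D : Dg V A) (x : V) : Finset V := univ.filter fun y => D.r x y

/-- the hypotheses -/
structure Ok (k : ℕ) (D : Dg V A) : Prop where
  refl : ∀ v, D.r v v
  tr : ∀ u v w, D.r u v → D.r v w → D.r u w
  comp : ∀ e ∈ D.S, D.r (D.tl e) (D.hd e)
  K : D.K5
  val : ∀ U, Cut D.r U → k ≤ (D.E U).card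

/-- `S` contains `k` disjoint dijoins -/
def Col (k : ℕ) (D : Dg V A) : Prop := ∃ f : A → Fin k, Pk D.r D.tl D.hd D.S k f

/-- counterexamples with the smallest number of arcs -/
structure Mn (k : ℕ) (D : Dg V A) : Prop where
  ok : Ok k D
  bad : ¬ Col k D
  min : ∀ (W : Type) [Fintype W] [DecidableEq W] (D' : Dg W A), Ok k D' →
    D'.S.card < D.S.card → Col k D'

/-- tight maximal vertices -/
def TS (k : ℕ) (D : Dg V A) (x : V) : Prop := D.Snk x ∧ (D.E (D.up x)).card = k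

theorem op_op (D : Dg V A) : D.op.op = D := rfl

theorem mem_E {D : Dg V A} {U : Finset V} {e : A} :
    e ∈ D.E U ↔ e ∈ D.S ∧ D.tl e ∉ U ∧ D.hd e ∈ U := mem_ent

theorem mem_up {D : Dg V A} {x y : V} : y ∈ D.up x ↔ D.r x y := by
  simp [up]

theorem up_up {D : Dg V A} (htr : ∀ u v w, D.r u v → D.r v w → D.r u w) (x : V) :
    Up D.r (D.up x) := by
  intro u hu v huv
  rw [mem_up] at hu ⊢
  exact htr _ _ _ hu huv

theorem cut_op {D : Dg V A} {U : Finset V} (h : Cut D.r U) : Cut D.op.r Uᶜ := by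
  refine ⟨?_, ?_, ?_⟩
  · rw [nonempty_iff_ne_empty]
    intro h1
    exact h.2.1 (compl_eq_empty_iff _ |>.1 h1)
  · intro h1
    rw [compl_eq_univ_iff] at h1
    exact h.1.ne_empty h1
  · intro u hu v huv
    rw [mem_compl] at hu ⊢
    exact fun hv => hu (h.2.2 v hv u huv)

theorem cut_of_op {D : Dg V A} {U : Finset V} (h : Cut D.op.r U) : Cut D.r Uᶜ :=
  cut_op (D := D.op) h

theorem E_op {D : Dg V A} (U : Finset V) : D.op.E U = D.E Uᶜ := by
  ext e
  simp only [mem_E, op, mem_compl, not_not]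
  tauto

theorem E_op' {D : Dg V A} (U : Finset V) : D.op.E Uᶜ = D.E U := by
  rw [E_op, compl_compl]

theorem K5.op {D : Dg V A} (h : D.K5) : D.op.K5 := by
  intro v w
  rcases h w v with h1 | h1 | ⟨a, t, h1, h2, h3⟩
  · exact Or.inr (Or.inl h1)
  · exact Or.inl h1
  · exact Or.inr (Or.inr ⟨t, a, h2, h1, h3⟩)

theorem Ok.op {k : ℕ} {D : Dg V A} (h : Ok k D) : Ok k D.op :=
  ⟨h.refl, fun _ _ _ h1 h2 => h.tr _ _ _ h2 h1, h.comp, h.K.op, fun U hU => by
    rw [E_op]
    exact h.val _ (cut_of_op hU)⟩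

theorem Col.op {k : ℕ} {D : Dg V A} (h : Col k D) : Col k D.op := by
  obtain ⟨f, hf⟩ := h
  refine ⟨f, fun i U hU => ?_⟩
  obtain ⟨e, he, h1, h2, h3⟩ := hf i _ (cut_of_op hU)
  rw [mem_compl] at h2 h3
  exact ⟨e, he, h1, h3, not_not.1 h2⟩

theorem Mn.op {k : ℕ} {D : Dg V A} (h : Mn k D) : Mn k D.op :=
  ⟨h.ok.op, fun h1 => h.bad (op_op D ▸ h1.op), h.min⟩

/-- minimal counterexamples -/
theorem exists_Mn {k : ℕ} (W : Type) [Fintype W] [DecidableEq W] (D : Dg W A) (h : Ok k D)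
    (hb : ¬ Col k D) :
    ∃ (W : Type) (_ : Fintype W) (_ : DecidableEq W) (D : Dg W A), Mn k D := by
  classical
  let P : ℕ → Prop := fun n => ∃ (W : Type) (_ : Fintype W) (_ : DecidableEq W) (D : Dg W A),
    Ok k D ∧ ¬ Col k D ∧ D.S.card = n
  have hP : ∃ n, P n := ⟨_, W, _, _, D, h, hb, rfl⟩
  obtain ⟨W0, i1, i2, D0, h1, h2, h3⟩ := Nat.find_spec hP
  refine ⟨W0, i1, i2, D0, h1, h2, ?_⟩
  intro W' j1 j2 D' h4 h5
  by_contra h6
  rw [h3] at h5
  exact Nat.find_min hP h5 ⟨W', j1, j2, D', h4, h6, rfl⟩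

variable [Fintype A]

/-- no global minimum -/
theorem Mn.no_min {k : ℕ} (hk : 0 < k) {D : Dg V A} (h : Mn k D) : ¬ ∃ b, ∀ y, D.r b y := by
  rintro ⟨b, hb⟩
  exact h.bad (pack_one h.ok.refl h.ok.tr hb h.ok.comp hk h.ok.val)

theorem Mn.no_max {k : ℕ} (hk : 0 < k) {D : Dg V A} (h : Mn k D) : ¬ ∃ b, ∀ y, D.r y b :=
  h.op.no_min hk

/-- minimal elements below -/
theorem exists_src {D : Dg V A} (hrefl : ∀ v, D.r v v)
    (htr : ∀ u v w, D.r u v → D.r v w → D.r u w) (x : V) : ∃ s, D.op.Snk s ∧ D.r s x := by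
  classical
  obtain ⟨s, hs, hmin⟩ := exists_min_image (univ.filter fun y => D.r y x)
    (fun y => (univ.filter fun z => D.r z y).card) ⟨x, mem_filter.2 ⟨mem_univ _, hrefl _⟩⟩
  rw [mem_filter] at hs
  refine ⟨s, fun y hy => ?_, hs.2⟩
  by_contra hn
  have h1 := hmin y (mem_filter.2 ⟨mem_univ _, htr _ _ _ hy hs.2⟩)
  have h2 : (univ.filter fun z => D.r z y) ⊂ (univ.filter fun z => D.r z s) := by
    rw [ssubset_iff_of_subset]
    · exact ⟨s, mem_filter.2 ⟨mem_univ _, hrefl _⟩, fun h => hn (mem_filter.1 h).2⟩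
    · intro z hz
      rw [mem_filter] at hz ⊢
      exact ⟨mem_univ _, htr _ _ _ hz.2 hy⟩
  exact absurd (card_lt_card h2) (not_lt.2 h1)

theorem exists_snk {D : Dg V A} (hrefl : ∀ v, D.r v v)
    (htr : ∀ u v w, D.r u v → D.r v w → D.r u w) (x : V) : ∃ s, D.Snk s ∧ D.r x s :=
  exists_src (D := D.op) hrefl (fun _ _ _ h1 h2 => htr _ _ _ h2 h1) x

end Dg

end Wood3
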