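import Pool.Agent.Lib.MP_492a9e_co.Pen.Base
import Pool.Agent.Lib.MP_492a9e_co.Two.Main

section
/-!
# Contraction of both sides of a tight cut
-/
open Finset Wood2

namespace Wood3

set_option linter.unusedSectionVars false

namespace Dg

variable {V A : Type} [Fintype V] [DecidableEq V] [DecidableEq A] [Fintype A]

/-- contraction of the up-set `U` -/
def con (D : Dg V A) (U : Finset V) : Dg V A :=
  ⟨fun x y => D.r x y ∨ ((∃ u ∈ U, D.r x u) ∧ y ∈ U), D.tl, D.hd, D.S.filter fun e => D.tl e ∉ U⟩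

theorem con_K5 {k : ℕ} (hk : 0 < k) {D : Dg V A} (h : Ok k D) {U : Finset V} (hU : Cut D.r U)
    (ht : (D.E U).card = k) : (D.con U).K5 := by
  classical
  have c1 : ∀ v, D.op.One v → (D.con U).op.One v := by
    rintro v ⟨c, hc⟩
    refine ⟨c, fun y hy => ?_⟩
    change D.r y c ∨ ((∃ u ∈ U, D.r y u) ∧ c ∈ U)
    rcases hy with hy | ⟨⟨u, hu, hvu⟩, hy⟩
    · exact Or.inl (hc y hy)
    · exact Or.inr ⟨⟨y, hy, h.refl y⟩, hU.2.2 u hu c (hc u hvu)⟩
  intro v w
  rcases h.K v w with h1 | h1 | ⟨a, t, h1, h2, h3⟩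
  · exact Or.inl (c1 v h1)
  · by_cases hw : w ∈ U
    · by_cases hall : ∀ w' ∈ U, D.One w'
      · right; left
        obtain ⟨b, hb⟩ := h1
        have hbU : ∀ u ∈ U, D.r b u := by
          by_contra hn
          push Not at hn
          obtain ⟨u0, hu0, hn⟩ := hn
          have hupp : ∀ x ∈ U, ∀ y, D.r x y → D.r b y → D.r b x := by
            intro x hx y hxy hby
            obtain ⟨b', hb'⟩ := hall y (hU.2.2 x hx y hxy)
            have h5 : D.r b' b := hb' b hby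
            have h6 : D.r b b' := hb b' (h.tr _ _ _ h5 (hb w (h.refl w)))
            exact h.tr _ _ _ h6 (hb' x hxy)
          have m := ent_modular (tl := D.tl) (hd := D.hd) (S := D.S) (r := D.r)
            (U := U.filter fun x => D.r b x) (W := U.filter fun x => ¬ D.r b x) h.comp (by
              intro x hx y hxy
              rw [mem_filter] at hx ⊢
              exact ⟨hU.2.2 x hx.1 y hxy, h.tr _ _ _ hx.2 hxy⟩) (by
              intro x hx y hxy
              rw [mem_filter] at hx ⊢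
              exact ⟨hU.2.2 x hx.1 y hxy, fun h7 => hx.2 (hupp x hx.1 y hxy h7)⟩)
          have hI : (U.filter fun x => D.r b x) ∩ (U.filter fun x => ¬ D.r b x) = ∅ := by
            ext x
            simp only [mem_inter, mem_filter, notMem_empty, iff_false]
            tauto
          have hUn : (U.filter fun x => D.r b x) ∪ (U.filter fun x => ¬ D.r b x) = U :=
            filter_union_filter_not_eq _ _
          rw [hI, hUn] at m
          have hE : ent D.tl D.hd D.S ∅ = ∅ := by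
            ext x
            simp [mem_ent]
          have hpr : ∀ X : Finset V, X ⊆ U → X ≠ univ := by
            rintro X hX rfl
            exact hU.2.1 (univ_subset_iff.1 hX)
          have v1 := h.val (U.filter fun x => D.r b x) ⟨⟨w, mem_filter.2 ⟨hw, hb w (h.refl w)⟩⟩,
            hpr _ (filter_subset _ _), by
              intro x hx y hxy
              rw [mem_filter] at hx ⊢
              exact ⟨hU.2.2 x hx.1 y hxy, h.tr _ _ _ hx.2 hxy⟩⟩
          have v2 := h.val (U.filter fun x => ¬ D.r b x) ⟨⟨u0, mem_filter.2 ⟨hu0, hn⟩⟩,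
            hpr _ (filter_subset _ _), by
              intro x hx y hxy
              rw [mem_filter] at hx ⊢
              exact ⟨hU.2.2 x hx.1 y hxy, fun h7 => hx.2 (hupp x hx.1 y hxy h7)⟩⟩
          simp only [E] at v1 v2 ht
          rw [hE, card_empty, ht] at m
          omega
        refine ⟨b, fun y hy => ?_⟩
        rcases hy with hy | ⟨⟨u, hu, hyu⟩, _⟩
        · exact Or.inl (hb y hy)
        · obtain ⟨b', hb'⟩ := hall u hu
          left
          have h5 : D.r b' b := hb' b (hbU u hu)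
          have h6 : D.r b b' := hb b' (h.tr _ _ _ h5 (hb w (h.refl w)))
          exact h.tr _ _ _ h6 (hb' y hyu)
      · push Not at hall
        obtain ⟨w', hw', hn⟩ := hall
        rcases h.K v w' with h4 | h4 | ⟨a, t, h4, h5, h6⟩
        · exact Or.inl (c1 v h4)
        · exact absurd h4 hn
        · exact Or.inr (Or.inr ⟨a, t, Or.inl h4,
            Or.inr ⟨⟨w, hw, h.refl w⟩, hU.2.2 w' hw' t h5⟩, Or.inl h6⟩)
    · right; left
      obtain ⟨b, hb⟩ := h1
      refine ⟨b, fun y hy => ?_⟩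
      rcases hy with hy | ⟨_, hy⟩
      · exact Or.inl (hb y hy)
      · exact absurd hy hw
  · exact Or.inr (Or.inr ⟨a, t, Or.inl h1, Or.inl h2, Or.inl h3⟩)

theorem con_ok {k : ℕ} (hk : 0 < k) {D : Dg V A} (h : Ok k D) {U : Finset V} (hU : Cut D.r U)
    (ht : (D.E U).card = k) : Ok k (D.con U) := by
  classical
  refine ⟨fun v => Or.inl (h.refl v), ?_, fun e he => Or.inl (h.comp e (mem_filter.1 he).1),
    con_K5 hk h hU ht, ?_⟩
  · rintro u v w (h1 | ⟨⟨x, hx, h1⟩, h1'⟩) (h2 | ⟨⟨y, hy, h2⟩, h2'⟩)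
    · exact Or.inl (h.tr _ _ _ h1 h2)
    · exact Or.inr ⟨⟨y, hy, h.tr _ _ _ h1 h2⟩, h2'⟩
    · exact Or.inr ⟨⟨x, hx, h1⟩, hU.2.2 v h1' w h2⟩
    · exact Or.inr ⟨⟨x, hx, h1⟩, h2'⟩
  · intro W hW
    have hWD : Cut D.r W := ⟨hW.1, hW.2.1, fun u hu v huv => hW.2.2 u hu v (Or.inl huv)⟩
    have hle := h.val W hWD
    have : (D.con U).E W = D.E W := by
      ext e
      simp only [mem_E]
      constructor
      · rintro ⟨h1, h2⟩
        exact ⟨(mem_filter.1 h1).1, h2⟩
      · rintro ⟨h1, h2, h3⟩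
        refine ⟨mem_filter.2 ⟨h1, fun h4 => ?_⟩, h2, h3⟩
        have h5 : D.hd e ∈ U := hU.2.2 _ h4 _ (h.comp e h1)
        exact h2 (hW.2.2 _ h3 _ (Or.inr ⟨⟨_, h5, h.refl _⟩, h4⟩))
    rw [this]
    exact hle

theorem con_cut {D : Dg V A} {U W : Finset V} (hW : Cut D.r W)
    (h : Disjoint W U ∨ U ⊆ W) : Cut (D.con U).r W := by
  refine ⟨hW.1, hW.2.1, ?_⟩
  rintro x hx y (hxy | ⟨⟨u, hu, hxu⟩, hy⟩)
  · exact hW.2.2 x hx y hxy
  · rcases h with h | h
    · exact absurd hu (Finset.disjoint_left.1 h (hW.2.2 x hx u hxu))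
    · exact h hy

theorem con_cut' {D : Dg V A} {U W : Finset V} (hW : Cut D.r W)
    (h : W ⊆ U ∨ Uᶜ ⊆ W) : Cut (D.op.con Uᶜ).op.r W := by
  refine ⟨hW.1, hW.2.1, ?_⟩
  rintro x hx y (hxy | ⟨⟨u, hu, hxu⟩, hy⟩)
  · exact hW.2.2 x hx y hxy
  · rcases h with h | h
    · exact absurd (h hx) (mem_compl.1 hy)
    · exact hW.2.2 u (h hu) y hxu

theorem glue {k : ℕ} {D : Dg V A} (h : Ok k D) {U : Finset V} (hU : Cut D.r U)
    (ht : (D.E U).card = k) (h1 : Col k (D.con U)) (h2 : Col k (D.op.con Uᶜ).op) : Col k D := by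
  classical
  obtain ⟨f1, hf1⟩ := h1
  obtain ⟨f2, hf2⟩ := h2
  have im : ∀ f : A → Fin k, (∀ i, ∃ e ∈ D.E U, f e = i) → Set.InjOn f (D.E U) := by
    intro f hf
    apply injOn_of_card_image_eq
    have : (D.E U).image f = univ := by
      rw [eq_univ_iff_forall]
      intro i
      obtain ⟨e, he, h3⟩ := hf i
      exact mem_image.2 ⟨e, he, h3⟩
    rw [this, card_univ, Fintype.card_fin, ht]
  have s1 : ∀ i, ∃ e ∈ D.E U, f1 e = i := by
    intro i
    obtain ⟨e, he, h3, h4⟩ := hf1 i U (con_cut hU (Or.inr (Subset.refl _)))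
    exact ⟨e, mem_E.2 ⟨(mem_filter.1 he).1, h4⟩, h3⟩
  have s2 : ∀ i, ∃ e ∈ D.E U, f2 e = i := by
    intro i
    obtain ⟨e, he, h3, h4⟩ := hf2 i U (con_cut' hU (Or.inl (Subset.refl _)))
    exact ⟨e, mem_E.2 ⟨(mem_filter.1 he).1, h4⟩, h3⟩
  have j1 := im f1 s1
  have j2 := im f2 s2
  choose g hg hg2 using s2
  let σ : Fin k → Fin k := fun i => f1 (g i)
  have hσ : Function.Injective σ := by
    intro i j hij
    have := j1 (hg i) (hg j) hij
    rw [← hg2 i, this, hg2 j]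
  have hσs : Function.Surjective σ := Finite.injective_iff_surjective.1 hσ
  have hσf : ∀ e ∈ D.E U, σ (f2 e) = f1 e := by
    intro e he
    have : g (f2 e) = e := j2 (hg _) he (hg2 _)
    change f1 (g (f2 e)) = f1 e
    rw [this]
  let f : A → Fin k := fun e => if D.tl e ∈ U then σ (f2 e) else f1 e
  have fa : ∀ e, D.tl e ∉ U → f e = f1 e := fun e he => if_neg he
  have fb : ∀ e ∈ D.S, D.hd e ∈ U → f e = σ (f2 e) := by
    intro e he hU'
    by_cases h3 : D.tl e ∈ U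
    · exact if_pos h3
    · rw [fa e h3, hσf e (mem_E.2 ⟨he, h3, hU'⟩)]
  have p1 : ∀ i W, Cut D.r W → (Disjoint W U ∨ U ⊆ W) →
      ∃ e ∈ D.S, D.tl e ∉ U ∧ f1 e = i ∧ D.tl e ∉ W ∧ D.hd e ∈ W := by
    intro i W hW hc
    obtain ⟨e, he, h3, h4⟩ := hf1 i W (con_cut hW hc)
    obtain ⟨h5, h6⟩ := mem_filter.1 he
    exact ⟨e, h5, h6, h3, h4⟩
  have p2 : ∀ i W, Cut D.r W → (W ⊆ U ∨ Uᶜ ⊆ W) →
      ∃ e ∈ D.S, D.hd e ∈ U ∧ f2 e = i ∧ D.tl e ∉ W ∧ D.hd e ∈ W := by
    intro i W hW hc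
    obtain ⟨e, he, h3, h4⟩ := hf2 i W (con_cut' hW hc)
    obtain ⟨h5, h6⟩ := mem_filter.1 he
    exact ⟨e, h5, not_not.1 fun h7 => h6 (mem_compl.2 h7), h3, h4⟩
  refine ⟨f, fun i W hW => ?_⟩
  by_cases hA : Disjoint W U
  · obtain ⟨e, h3, h4, h5, h6⟩ := p1 i W hW (Or.inl hA)
    exact ⟨e, h3, (fa e h4).trans h5, h6⟩
  by_cases hB : Uᶜ ⊆ W
  · obtain ⟨j, hj⟩ := hσs i
    obtain ⟨e, h3, h4, h5, h6⟩ := p2 j W hW (Or.inr hB)
    exact ⟨e, h3, by rw [fb e h3 h4, h5, hj], h6⟩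
  have cI : Cut D.r (W ∩ U) := by
    refine ⟨?_, fun h3 => hU.2.1 ?_, hW.2.2.inter hU.2.2⟩
    · rw [Finset.not_disjoint_iff] at hA
      obtain ⟨x, hx, hx'⟩ := hA
      exact ⟨x, mem_inter.2 ⟨hx, hx'⟩⟩
    · rw [← univ_subset_iff, ← h3]
      exact inter_subset_right
  have cU : Cut D.r (W ∪ U) := by
    refine ⟨hW.1.mono subset_union_left, fun h3 => hB ?_, hW.2.2.union hU.2.2⟩
    intro x hx
    rw [mem_compl] at hx
    have : x ∈ W ∪ U := h3 ▸ mem_univ x
    exact (mem_union.1 this).resolve_right hx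
  obtain ⟨j, hj⟩ := hσs i
  obtain ⟨e, h3, h4, h5, h6, h7⟩ := p2 j _ cI (Or.inl inter_subset_right)
  obtain ⟨e', h3', h4', h5', h6', h7'⟩ := p1 i _ cU (Or.inr subset_union_right)
  rw [mem_inter] at h6 h7
  rw [mem_union] at h6' h7'
  by_cases hC : D.tl e ∈ W
  · by_cases hD : D.hd e' ∈ W
    · exact ⟨e', h3', (fa e' h4').trans h5', fun h8 => h6' (Or.inl h8), hD⟩
    · exfalso
      have m1 : e ∈ D.E U := mem_E.2 ⟨h3, fun h8 => h6 ⟨hC, h8⟩, h4⟩
      have m2 : e' ∈ D.E U := mem_E.2 ⟨h3', h4', h7'.resolve_left hD⟩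
      have : e = e' := by
        apply j1 m1 m2
        rw [h5', ← hσf e m1, h5, hj]
      rw [this] at hC
      exact h6' (Or.inl hC)
  · exact ⟨e, h3, by rw [fb e h3 h4, h5, hj], hC, h7.1⟩

/-- a tight cut has no arcs on one of its sides -/
theorem Mn.tight {k : ℕ} (hk : 0 < k) {D : Dg V A} (h : Mn k D) {U : Finset V} (hU : Cut D.r U)
    (ht : (D.E U).card = k) : (∀ e ∈ D.S, D.tl e ∉ U) ∨ (∀ e ∈ D.S, D.hd e ∈ U) := by
  classical
  by_contra hn
  push Not at hn
  obtain ⟨⟨e1, he1, h1⟩, ⟨e2, he2, h2⟩⟩ := hn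
  apply h.bad
  refine glue h.ok hU ht ?_ ?_
  · refine h.min V _ (con_ok hk h.ok hU ht) (card_lt_card ?_)
    refine (ssubset_iff_of_subset (filter_subset _ _)).2 ⟨e1, he1, fun h3 => ?_⟩
    exact (mem_filter.1 h3).2 h1
  · apply Col.op
    refine h.min V _ (con_ok hk h.ok.op (cut_op hU) (by rw [E_op']; exact ht)) (card_lt_card ?_)
    refine (ssubset_iff_of_subset (filter_subset _ _)).2 ⟨e2, he2, fun h3 => ?_⟩
    exact (mem_filter.1 h3).2 (mem_compl.2 h2)

end Dg

end Wood3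
end

section
/-!
# Tight cuts in minimal counterexamples
-/
open Finset Wood2

namespace Wood3

set_option linter.unusedSectionVars false

namespace Dg

variable {V A : Type} [Fintype V] [DecidableEq V] [DecidableEq A] [Fintype A]

theorem E_erase {D : Dg V A} {e : A} (U : Finset V) :
    ent D.tl D.hd (D.S.erase e) U = (D.E U).erase e := by
  ext x
  simp only [mem_ent, mem_E, mem_erase]
  tauto

/-- every arc enters a tight cut -/
theorem Mn.exTight {k : ℕ} {D : Dg V A} (h : Mn k D) {e : A} (he : e ∈ D.S) :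
    ∃ U, Cut D.r U ∧ e ∈ D.E U ∧ (D.E U).card = k := by
  by_contra hn
  push Not at hn
  have hok : Ok k (⟨D.r, D.tl, D.hd, D.S.erase e⟩ : Dg V A) := by
    refine ⟨h.ok.refl, h.ok.tr, fun e' he' => h.ok.comp e' (mem_of_mem_erase he'), h.ok.K,
      fun U hU => ?_⟩
    have h1 := h.ok.val U hU
    change k ≤ (ent D.tl D.hd (D.S.erase e) U).card
    rw [E_erase]
    by_cases h2 : e ∈ D.E U
    · have h3 := hn U hU h2
      rw [card_erase_of_mem h2]
      omega
    · rw [erase_eq_of_notMem h2]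
      exact h1
  obtain ⟨f, hf⟩ := h.min V _ hok (card_erase_lt_of_mem he)
  exact h.bad ⟨f, Pk.mono (erase_subset _ _) hf⟩

theorem Mn.no_loop {k : ℕ} {D : Dg V A} (h : Mn k D) {e : A} (he : e ∈ D.S) :
    ¬ D.r (D.hd e) (D.tl e) := by
  obtain ⟨U, hU, h1, _⟩ := h.exTight he
  obtain ⟨_, h2, h3⟩ := mem_E.1 h1
  exact fun h4 => h2 (hU.2.2 _ h3 _ h4)

theorem Mn.half {k : ℕ} {D : Dg V A} (h : Mn k D) {U : Finset V} (hU : Cut D.r U)
    (ht : (D.E U).card = k) (hs : ∀ e ∈ D.S, D.tl e ∉ U) {e : A} (he : e ∈ D.S)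
    (hx : D.hd e ∈ U) : TS k D (D.hd e) ∧ ∀ e' ∈ D.S, D.hd e' ∈ U → D.r (D.hd e) (D.hd e') := by
  have key : ∀ y ∈ U, D.E (D.up y) = D.E U := by
    intro y hy
    have hsub : D.up y ⊆ U := fun z hz => hU.2.2 y hy z (mem_up.1 hz)
    have hc : Cut D.r (D.up y) := ⟨⟨y, mem_up.2 (h.ok.refl y)⟩, fun h1 => hU.2.1 (by
      rw [← univ_subset_iff, ← h1]; exact hsub), up_up h.ok.tr y⟩
    apply eq_of_subset_of_card_le
    · intro x hx
      rw [mem_E] at hx ⊢
      exact ⟨hx.1, hs x hx.1, hsub hx.2.2⟩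
    · rw [ht]
      exact h.ok.val _ hc
  have hm : e ∈ D.E U := mem_E.2 ⟨he, hs e he, hx⟩
  refine ⟨⟨?_, ?_⟩, ?_⟩
  · intro y hy
    have h1 := key y (hU.2.2 _ hx _ hy)
    rw [← h1, mem_E] at hm
    exact mem_up.1 hm.2.2
  · rw [key _ hx, ht]
  · intro e' he' hx'
    have h1 := key _ hx
    have h2 : e' ∈ D.E U := mem_E.2 ⟨he', hs e' he', hx'⟩
    rw [← h1, mem_E] at h2
    exact mem_up.1 h2.2.2

/-- the two kinds of tight cuts -/
theorem Mn.tcase {k : ℕ} (hk : 0 < k) {D : Dg V A} (h : Mn k D) {U : Finset V} (hU : Cut D.r U)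
    (ht : (D.E U).card = k) :
    ((∀ e ∈ D.S, D.tl e ∉ U) ∧ ∀ e ∈ D.S, D.hd e ∈ U →
      TS k D (D.hd e) ∧ ∀ e' ∈ D.S, D.hd e' ∈ U → D.r (D.hd e) (D.hd e')) ∨
    ((∀ e ∈ D.S, D.hd e ∈ U) ∧ ∀ e ∈ D.S, D.tl e ∉ U →
      TS k D.op (D.tl e) ∧ ∀ e' ∈ D.S, D.tl e' ∉ U → D.r (D.tl e') (D.tl e)) := by
  rcases h.tight hk hU ht with h1 | h1
  · exact Or.inl ⟨h1, fun e he hx => h.half hU ht h1 he hx⟩
  · right
    refine ⟨h1, fun e he hx => ?_⟩
    obtain ⟨h2, h3⟩ := h.op.half (cut_op hU) (by rw [E_op']; exact ht)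
      (fun e' he' h4 => (mem_compl.1 h4) (h1 e' he')) he (mem_compl.2 hx)
    exact ⟨h2, fun e' he' hx' => h3 e' he' (mem_compl.2 hx')⟩

theorem Mn.ts_or {k : ℕ} (hk : 0 < k) {D : Dg V A} (h : Mn k D) {e : A} (he : e ∈ D.S) :
    TS k D (D.hd e) ∨ TS k D.op (D.tl e) := by
  obtain ⟨U, hU, h1, h2⟩ := h.exTight he
  obtain ⟨_, h3, h4⟩ := mem_E.1 h1
  rcases h.tcase hk hU h2 with h5 | h5
  · exact Or.inl (h5.2 e he h4).1
  · exact Or.inr (h5.2 e he h3).1

theorem TS.congr {k : ℕ} {D : Dg V A} (htr : ∀ u v w, D.r u v → D.r v w → D.r u w) {x y : V}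
    (h : TS k D x) (hxy : D.r x y) : TS k D y := by
  have hyx := h.1 y hxy
  refine ⟨fun z hz => htr _ _ _ (h.1 z (htr _ _ _ hxy hz)) hxy, ?_⟩
  have : D.up y = D.up x := by
    ext z
    rw [mem_up, mem_up]
    exact ⟨htr _ _ _ hxy, htr _ _ _ hyx⟩
  rw [this]
  exact h.2

theorem split_two {D : Dg V A} (hS : ∀ e ∈ D.S, D.r (D.tl e) (D.hd e)) {e e2 : A} (he : e ∈ D.S)
    (he2 : e2 ∈ D.S) (hne : e2 ≠ e) (h3 : D.r (D.tl e2) (D.hd e)) (h4 : D.r (D.tl e) (D.hd e2))
    {U : Finset V} (hU : Up D.r U) :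
    (D.E U).card ≤ (ent D.tl (Function.update D.hd e (D.hd e2)) (D.S.erase e2) U).card +
      (if D.hd e ∈ U ∧ D.tl e2 ∉ U then 1 else 0) := by
  have hS' : D.S = insert e (insert e2 ((D.S.erase e2).erase e)) := by
    ext x
    simp only [mem_insert, mem_erase]
    by_cases h1 : x = e
    · subst h1; simp [he]
    · by_cases h4 : x = e2
      · subst h4; simp [he2]
      · simp [h1, h4]
  have hn1 : e ∉ insert e2 ((D.S.erase e2).erase e) := by
    simp [hne.symm]
  have hn2 : e2 ∉ (D.S.erase e2).erase e := by simp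
  have hS2 : D.S.erase e2 = insert e ((D.S.erase e2).erase e) := by
    rw [insert_erase]
    exact mem_erase.2 ⟨hne.symm, he⟩
  have hn3 : e ∉ (D.S.erase e2).erase e := by simp
  have hT : ent D.tl (Function.update D.hd e (D.hd e2)) ((D.S.erase e2).erase e) U =
      ent D.tl D.hd ((D.S.erase e2).erase e) U := by
    ext x
    simp only [mem_ent]
    constructor
    · rintro ⟨h1, h4, h5⟩
      rw [Function.update_of_ne (mem_erase.1 h1).1] at h5
      exact ⟨h1, h4, h5⟩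
    · rintro ⟨h1, h4, h5⟩
      refine ⟨h1, h4, ?_⟩
      rw [Function.update_of_ne (mem_erase.1 h1).1]
      exact h5
  have c1 : (D.E U).card = (if D.tl e ∉ U ∧ D.hd e ∈ U then 1 else 0) +
      ((if D.tl e2 ∉ U ∧ D.hd e2 ∈ U then 1 else 0) +
        (ent D.tl D.hd ((D.S.erase e2).erase e) U).card) := by
    unfold E
    conv_lhs => rw [hS']
    rw [ent_insert hn1, ent_insert hn2]
  have c2 : (ent D.tl (Function.update D.hd e (D.hd e2)) (D.S.erase e2) U).card =
      (if D.tl e ∉ U ∧ D.hd e2 ∈ U then 1 else 0) +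
        (ent D.tl D.hd ((D.S.erase e2).erase e) U).card := by
    conv_lhs => rw [hS2]
    rw [ent_insert hn3, hT, Function.update_self]
  rw [c1, c2]
  have a1 : D.tl e ∈ U → D.hd e ∈ U := fun h => hU _ h _ (hS _ he)
  have a2 : D.tl e2 ∈ U → D.hd e ∈ U := fun h => hU _ h _ h3
  have a3 : D.tl e2 ∈ U → D.hd e2 ∈ U := fun h => hU _ h _ (hS _ he2)
  have a4 : D.tl e ∈ U → D.hd e2 ∈ U := fun h => hU _ h _ h4
  generalize (ent D.tl D.hd ((D.S.erase e2).erase e) U).card = n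
  clear c1 c2 hT hS2 hS' hn1 hn2 hn3
  split_ifs <;> first | omega | (exfalso; tauto)

/-- (C) -/
theorem Mn.cc {k : ℕ} (hk : 0 < k) {D : Dg V A} (h : Mn k D) {e e' : A} (he : e ∈ D.S)
    (he' : e' ∈ D.S) (h1 : ¬ TS k D (D.hd e)) (h2 : ¬ TS k D.op (D.tl e'))
    (h3 : D.r (D.tl e') (D.hd e)) (h4 : D.r (D.tl e) (D.hd e')) : False := by
  have hne : e' ≠ e := by
    rintro rfl
    rcases h.ts_or hk he with h5 | h5
    · exact h1 h5
    · exact h2 h5
  have hok : Ok k (⟨D.r, D.tl, Function.update D.hd e (D.hd e'), D.S.erase e'⟩ : Dg V A) := by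
    refine ⟨h.ok.refl, h.ok.tr, fun x hx => ?_, h.ok.K, fun U hU => ?_⟩
    · by_cases hxe : x = e
      · subst hxe
        simp only [Function.update_self]
        exact h4
      · simp only [Function.update_of_ne hxe]
        exact h.ok.comp x (mem_of_mem_erase hx)
    · have h5 := split_two h.ok.comp he he' hne h3 h4 hU.2.2
      have h6 := h.ok.val U hU
      change k ≤ (ent D.tl (Function.update D.hd e (D.hd e')) (D.S.erase e') U).card
      by_cases h7 : D.hd e ∈ U ∧ D.tl e' ∉ U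
      · rw [if_pos h7] at h5
        have h8 : (D.E U).card ≠ k := by
          intro h9
          rcases h.tcase hk hU h9 with h10 | h10
          · exact h1 (h10.2 e he h7.1).1
          · exact h2 (h10.2 e' he' h7.2).1
        omega
      · rw [if_neg h7] at h5
        omega
  obtain ⟨f, hf⟩ := h.min V _ hok (card_erase_lt_of_mem he')
  exact h.bad ⟨_, split_lift he he' hne h3 hf⟩

/-- no tail is equivalent to an open head -/
theorem Mn.open_tail {k : ℕ} (hk : 0 < k) {D : Dg V A} (h : Mn k D) {e g : A} (he : e ∈ D.S)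
    (h1 : ¬ TS k D (D.hd e)) (hg : g ∈ D.S) (h2 : D.r (D.hd e) (D.tl g))
    (h3 : D.r (D.tl g) (D.hd e)) : False := by
  refine h.cc hk he hg h1 (fun h4 => ?_) h3
    (h.ok.tr _ _ _ (h.ok.comp e he) (h.ok.tr _ _ _ h2 (h.ok.comp g hg)))
  have h5 : D.r (D.tl g) (D.tl e) := h4.1 _ (h.ok.tr _ _ _ (h.ok.comp e he) h2)
  exact h.no_loop he (h.ok.tr _ _ _ h2 h5)

/-- an open head is not above its tail only -/
theorem Mn.open_head {k : ℕ} (hk : 0 < k) {D : Dg V A} (h : Mn k D) {e : A} (he : e ∈ D.S)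
    (h1 : ¬ TS k D (D.hd e)) : ¬ ∀ y, D.r y (D.hd e) → D.r (D.tl e) y := by
  intro hall
  have hT : TS k D.op (D.tl e) := (h.ts_or hk he).resolve_left h1
  -- the complement of the set below the head
  have hW : Cut D.op.r (D.op.up (D.hd e)) := by
    refine ⟨⟨D.hd e, mem_up.2 (h.ok.refl _)⟩, ?_, up_up h.op.ok.tr _⟩
    intro h2
    apply h.no_max hk
    refine ⟨D.hd e, fun y => ?_⟩
    have : y ∈ D.op.up (D.hd e) := h2 ▸ mem_univ y
    exact (mem_up (D := D.op)).1 this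
  have h3 := h.op.ok.val _ hW
  have hsub : D.op.E (D.op.up (D.hd e)) ⊆ (D.op.E (D.op.up (D.tl e))).erase e := by
    intro g hg
    obtain ⟨g1, g2, g3⟩ := mem_E.1 hg
    rw [mem_up] at g2 g3
    change ¬ D.r (D.hd g) (D.hd e) at g2
    change D.r (D.tl g) (D.hd e) at g3
    have g4 : D.r (D.tl e) (D.tl g) := hall _ g3
    have g5 : D.r (D.tl g) (D.tl e) := by
      by_contra hn
      refine h.cc hk he g1 h1 (fun h5 => ?_) g3 (h.ok.tr _ _ _ g4 (h.ok.comp g g1))
      exact hn (h5.1 _ g4)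
    rw [mem_erase, mem_E, mem_up, mem_up]
    refine ⟨?_, g1, fun h5 => ?_, g5⟩
    · rintro rfl
      exact g2 (h.ok.refl _)
    · change D.r (D.hd g) (D.tl e) at h5
      exact g2 (h.ok.tr _ _ _ h5 (h.ok.comp e he))
  have h4 := card_le_card hsub
  have h5 : e ∈ D.op.E (D.op.up (D.tl e)) := by
    rw [mem_E, mem_up, mem_up]
    exact ⟨he, h.no_loop he, h.ok.refl _⟩
  rw [card_erase_of_mem h5, hT.2] at h4
  omega

end Dg

end Wood3
end

section
/-!
# Normal form: below an open head there are only minimal vertices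
-/
open Finset Wood2

namespace Wood3

set_option linter.unusedSectionVars false

namespace Dg

variable {V A : Type} [Fintype V] [DecidableEq V] [DecidableEq A] [Fintype A]

section pull

variable {W : Type} [Fintype W] [DecidableEq W]

/-- pulling back -/
def pull (D : Dg V A) (π : W → V) (tl hd : A → W) : Dg W A :=
  ⟨fun x y => D.r (π x) (π y), tl, hd, D.S⟩

theorem Ok.pull {k : ℕ} {D : Dg V A} (h : Ok k D) {π : W → V} (hπ : Function.Surjective π)
    {tl hd : A → W} (h1 : ∀ e, π (tl e) = D.tl e) (h2 : ∀ e, π (hd e) = D.hd e) :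
    Ok k (D.pull π tl hd) := by
  classical
  refine ⟨fun v => h.refl _, fun u v w => h.tr _ _ _, fun e he => ?_, ?_, ?_⟩
  · change D.r (π (tl e)) (π (hd e))
    rw [h1, h2]
    exact h.comp e he
  · intro v w
    rcases h.K (π v) (π w) with ⟨c, hc⟩ | ⟨b, hb⟩ | ⟨a, t, h3, h4, h5⟩
    · obtain ⟨c, rfl⟩ := hπ c
      exact Or.inl ⟨c, fun y hy => hc (π y) hy⟩
    · obtain ⟨b, rfl⟩ := hπ b
      exact Or.inr (Or.inl ⟨b, fun y hy => hb (π y) hy⟩)
    · obtain ⟨a, rfl⟩ := hπ a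
      obtain ⟨t, rfl⟩ := hπ t
      exact Or.inr (Or.inr ⟨a, t, h3, h4, h5⟩)
  · intro U hU
    have hmem : ∀ x, x ∈ U ↔ π x ∈ U.image π := by
      intro x
      refine ⟨fun hx => mem_image_of_mem _ hx, fun hx => ?_⟩
      obtain ⟨u, hu, hux⟩ := mem_image.1 hx
      refine hU.2.2 u hu x ?_
      change D.r (π u) (π x)
      rw [hux]
      exact h.refl _
    have hc : Cut D.r (U.image π) := by
      refine ⟨hU.1.image π, fun h3 => hU.2.1 ?_, ?_⟩
      · rw [eq_univ_iff_forall]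
        intro x
        rw [hmem, h3]
        exact mem_univ _
      · intro u hu v huv
        obtain ⟨u, rfl⟩ := hπ u
        obtain ⟨v, rfl⟩ := hπ v
        rw [← hmem] at hu ⊢
        exact hU.2.2 u hu v huv
    have h3 := h.val _ hc
    have : (D.pull π tl hd).E U = D.E (U.image π) := by
      ext e
      simp only [mem_E]
      change e ∈ D.S ∧ tl e ∉ U ∧ hd e ∈ U ↔ _
      rw [hmem, hmem, h1, h2]
    rw [this]
    exact h3

theorem Col.of_pull {k : ℕ} {D : Dg V A} {π : W → V} (hπ : Function.Surjective π)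
    {tl hd : A → W} (h1 : ∀ e, π (tl e) = D.tl e) (h2 : ∀ e, π (hd e) = D.hd e)
    (h : Col k (D.pull π tl hd)) : Col k D := by
  classical
  obtain ⟨f, hf⟩ := h
  refine ⟨f, fun i U hU => ?_⟩
  obtain ⟨e, he, h3, h4, h5⟩ := hf i (univ.filter fun x => π x ∈ U) (by
    refine ⟨?_, ?_, ?_⟩
    · obtain ⟨u, hu⟩ := hU.1
      obtain ⟨u, rfl⟩ := hπ u
      exact ⟨u, mem_filter.2 ⟨mem_univ _, hu⟩⟩
    · intro h3
      apply hU.2.1
      rw [eq_univ_iff_forall]
      intro v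
      obtain ⟨v, rfl⟩ := hπ v
      have : v ∈ univ.filter fun x => π x ∈ U := by rw [h3]; exact mem_univ v
      exact (mem_filter.1 this).2
    · intro u hu v huv
      rw [mem_filter] at hu ⊢
      exact ⟨mem_univ _, hU.2.2 _ hu.2 _ huv⟩)
  rw [mem_filter] at h4 h5
  refine ⟨e, he, h3, fun h6 => h4 ⟨mem_univ _, ?_⟩, ?_⟩
  · change π (tl e) ∈ U
    rw [h1]
    exact h6
  · have := h5.2
    change π (hd e) ∈ U at this
    rwa [h2] at this

theorem Mn.pull {k : ℕ} {D : Dg V A} (h : Mn k D) {π : W → V} (hπ : Function.Surjective π)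
    {tl hd : A → W} (h1 : ∀ e, π (tl e) = D.tl e) (h2 : ∀ e, π (hd e) = D.hd e) :
    Mn k (D.pull π tl hd) :=
  ⟨h.ok.pull hπ h1 h2, fun h3 => h.bad (h3.of_pull hπ h1 h2), h.min⟩

end pull

/-- dropping relations below `h` -/
def drop (D : Dg V A) (h : V) : Dg V A :=
  ⟨fun x y => D.r x y ∧ (y = h → x = h ∨ D.op.Snk x), D.tl, D.hd, D.S⟩

theorem src_of_le {D : Dg V A} (htr : ∀ u v w, D.r u v → D.r v w → D.r u w) {u v : V}
    (h : D.op.Snk v) (huv : D.r u v) : D.op.Snk u := by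
  intro z hz
  change D.r z u at hz
  change D.r u z
  exact htr _ _ _ huv (h z (htr _ _ _ hz huv))

theorem Mn.drop_ok {k : ℕ} (hk : 2 ≤ k) {D : Dg V A} (h : Mn k D)
    (hinj : Function.Injective D.hd) {e : A} (he : e ∈ D.S) (h1 : ¬ TS k D (D.hd e)) :
    Ok k (D.drop (D.hd e)) := by
  classical
  have hk0 : 0 < k := by omega
  have htr := h.ok.tr
  have hT : TS k D.op (D.tl e) := (h.ts_or hk0 he).resolve_left h1
  have hne : ∀ c, ∃ c', c' ≠ D.hd e ∧ D.r c c' := by
    have h0 : ∃ c', c' ≠ D.hd e ∧ D.r (D.hd e) c' := by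
      by_contra hn
      push Not at hn
      have hc : Cut D.r (D.up (D.hd e)) := by
        refine ⟨⟨D.hd e, mem_up.2 (h.ok.refl _)⟩, fun h2 => ?_, up_up htr _⟩
        apply h.no_min hk0
        refine ⟨D.hd e, fun y => ?_⟩
        have : y ∈ D.up (D.hd e) := h2 ▸ mem_univ y
        exact mem_up.1 this
      have h2 := h.ok.val _ hc
      have h3 : D.E (D.up (D.hd e)) ⊆ {e} := by
        intro g hg
        obtain ⟨g1, g2, g3⟩ := mem_E.1 hg
        rw [mem_singleton]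
        apply hinj
        by_contra hn2
        exact hn _ hn2 (mem_up.1 g3)
      have h4 := card_le_card h3
      rw [card_singleton] at h4
      omega
    intro c
    by_cases hc : c = D.hd e
    · rw [hc]; exact h0
    · exact ⟨c, hc, h.ok.refl c⟩
  have hcomp : ∀ g ∈ D.S, (D.drop (D.hd e)).r (D.tl g) (D.hd g) := by
    intro g hg
    refine ⟨h.ok.comp g hg, fun h2 => ?_⟩
    rw [hinj h2]
    exact Or.inr hT.1
  refine ⟨fun v => ⟨h.ok.refl v, fun h2 => Or.inl h2⟩, ?_, hcomp, ?_, ?_⟩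
  · rintro u v w ⟨h2, h3⟩ ⟨h4, h5⟩
    refine ⟨htr _ _ _ h2 h4, fun hw => ?_⟩
    rcases h5 hw with h6 | h6
    · exact h3 h6
    · exact Or.inr (src_of_le htr h6 h2)
  · intro v w
    rcases h.ok.K v w with ⟨c, hc⟩ | ⟨b, hb⟩ | ⟨a, t, h2, h3, h4⟩
    · obtain ⟨c', h5, h6⟩ := hne c
      exact Or.inl ⟨c', fun y hy => ⟨htr _ _ _ (hc y hy.1) h6, fun h7 => absurd h7 h5⟩⟩
    · refine Or.inr (Or.inl ⟨b, fun y hy => ⟨hb y hy.1, fun _ => Or.inr fun z hz => ?_⟩⟩)
      exact hb z (htr _ _ _ hz (hb w (h.ok.refl w)))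
    · obtain ⟨s, h5, h6⟩ := exists_src h.ok.refl htr a
      obtain ⟨t', h7, h8⟩ := hne t
      exact Or.inr (Or.inr ⟨s, t', ⟨htr _ _ _ h6 h2, fun _ => Or.inr h5⟩,
        ⟨htr _ _ _ h3 h8, fun h9 => absurd h9 h7⟩,
        ⟨htr _ _ _ h6 (htr _ _ _ h4 h8), fun h9 => absurd h9 h7⟩⟩)
  · intro U hU
    change k ≤ (D.E U).card
    by_cases hup : Up D.r U
    · exact h.ok.val U ⟨hU.1, hU.2.1, hup⟩
    · unfold Up at hup
      push Not at hup
      obtain ⟨x, hx, y, hxy, hy⟩ := hup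
      have hyh : y = D.hd e := by
        by_contra hn
        exact hy (hU.2.2 x hx y ⟨hxy, fun h2 => absurd h2 hn⟩)
      subst hyh
      have htl : D.tl e ∉ U := fun h2 => hy (hU.2.2 _ h2 _ (hcomp e he))
      have htl' : D.tl e ∉ insert (D.hd e) U := by
        rw [mem_insert]
        rintro (h2 | h2)
        · apply h.no_loop he
          rw [h2]
          exact h.ok.refl _
        · exact htl h2
      have hc : Cut D.r (insert (D.hd e) U) := by
        refine ⟨⟨_, mem_insert_self _ _⟩, fun h2 => htl' (h2 ▸ mem_univ _), ?_⟩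
        intro u hu z huz
        rw [mem_insert] at hu ⊢
        by_cases hz : z = D.hd e
        · exact Or.inl hz
        · right
          rcases hu with rfl | hu
          · exact hU.2.2 x hx z ⟨htr _ _ _ hxy huz, fun h2 => absurd h2 hz⟩
          · exact hU.2.2 u hu z ⟨huz, fun h2 => absurd h2 hz⟩
      have hm : e ∈ D.E (insert (D.hd e) U) := mem_E.2 ⟨he, htl', mem_insert_self _ _⟩
      have hsub : (D.E (insert (D.hd e) U)).erase e ⊆ D.E U := by
        intro g hg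
        rw [mem_erase, mem_E, mem_insert, mem_insert] at hg
        obtain ⟨g0, g1, g2, g3⟩ := hg
        rw [mem_E]
        exact ⟨g1, fun h2 => g2 (Or.inr h2), g3.resolve_left fun h2 => g0 (hinj h2)⟩
      have hle := card_le_card hsub
      rw [card_erase_of_mem hm] at hle
      have hv := h.ok.val _ hc
      have hnt : (D.E (insert (D.hd e) U)).card ≠ k := by
        intro ht
        rcases h.tcase hk0 hc ht with h2 | h2
        · exact h1 (h2.2 e he (mem_insert_self _ _)).1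
        · apply h.open_head hk0 he h1
          intro z hz
          obtain ⟨s, h3, h4⟩ := exists_src h.ok.refl htr z
          have hs : s ∉ insert (D.hd e) U := by
            rw [mem_insert]
            rintro (rfl | h5)
            · exact h.no_loop he (h3 _ (h.ok.comp e he))
            · exact hy (hU.2.2 _ h5 _ ⟨htr _ _ _ h4 hz, fun _ => Or.inr h3⟩)
          have hcs : Cut D.op.r (D.op.up s) := by
            refine ⟨⟨s, mem_up.2 (h.ok.refl _)⟩, fun h5 => ?_, up_up h.op.ok.tr _⟩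
            apply h.no_max hk0
            refine ⟨s, fun y => ?_⟩
            have : y ∈ D.op.up s := h5 ▸ mem_univ y
            exact (mem_up (D := D.op)).1 this
          obtain ⟨g, hg⟩ := card_pos.1 (lt_of_lt_of_le hk0 (h.op.ok.val _ hcs))
          obtain ⟨g1, g2, g3⟩ := mem_E.1 hg
          have g4 : D.r (D.tl g) s := (mem_up (D := D.op)).1 g3
          have g5 : D.tl g ∉ insert (D.hd e) U := fun h6 => hs (hc.2.2 _ h6 _ g4)
          have g6 := (h2.2 g g1 g5).2 e he htl'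
          exact htr _ _ _ g6 (htr _ _ _ g4 h4)
      omega

theorem Mn.drop {k : ℕ} (hk : 2 ≤ k) {D : Dg V A} (h : Mn k D)
    (hinj : Function.Injective D.hd) {e : A} (he : e ∈ D.S) (h1 : ¬ TS k D (D.hd e)) :
    Mn k (D.drop (D.hd e)) := by
  refine ⟨h.drop_ok hk hinj he h1, ?_, h.min⟩
  rintro ⟨f, hf⟩
  exact h.bad ⟨f, fun i U hU => hf i U ⟨hU.1, hU.2.1, fun u hu v huv => hU.2.2 u hu v huv.1⟩⟩

/-- the normal form -/
structure Nf (k : ℕ) (D : Dg V A) : Prop where
  mn : Mn k D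
  inj : Function.Injective D.hd
  low : ∀ e ∈ D.S, ¬ TS k D (D.hd e) → ∀ x, D.r x (D.hd e) → x = D.hd e ∨ D.op.Snk x

open Classical in
/-- number of related pairs -/
noncomputable def np (D : Dg V A) : ℕ := (univ.filter fun p : V × V => D.r p.1 p.2).card

theorem exists_Nf {k : ℕ} (hk : 2 ≤ k) : ∀ (n : ℕ) (D : Dg V A), D.np = n → Mn k D →
    Function.Injective D.hd → ∃ D' : Dg V A, Nf k D' := by
  classical
  intro n
  induction n using Nat.strong_induction_on with
  | _ n ih =>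
    intro D hn h hinj
    by_cases hlow : ∀ e ∈ D.S, ¬ TS k D (D.hd e) → ∀ x, D.r x (D.hd e) → x = D.hd e ∨ D.op.Snk x
    · exact ⟨D, h, hinj, hlow⟩
    · push Not at hlow
      obtain ⟨e, he, h1, x, hx, h2, h3⟩ := hlow
      refine ih (D.drop (D.hd e)).np ?_ (D.drop (D.hd e)) rfl (h.drop hk hinj he h1) hinj
      rw [← hn]
      unfold np
      refine card_lt_card ?_
      rw [ssubset_iff_of_subset]
      · refine ⟨(x, D.hd e), mem_filter.2 ⟨mem_univ _, hx⟩, fun h4 => ?_⟩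
        rcases (mem_filter.1 h4).2.2 rfl with h5 | h5
        · exact h2 h5
        · exact h3 h5
      · intro p hp
        rw [mem_filter] at hp ⊢
        exact ⟨mem_univ _, hp.2.1⟩

theorem exists_Nf' {k : ℕ} (hk : 2 ≤ k) {D : Dg V A} (h : Mn k D) :
    ∃ D' : Dg (V ⊕ A) A, Nf k D' := by
  have h1 : Mn k (D.pull (W := V ⊕ A) (Sum.elim id D.hd) (fun e => Sum.inl (D.tl e)) Sum.inr) :=
    h.pull (fun v => ⟨Sum.inl v, rfl⟩) (fun e => rfl) (fun e => rfl)
  exact exists_Nf hk _ _ rfl h1 (fun a b hab => Sum.inr_injective hab)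

end Dg

end Wood3
end
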